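import Mathlib

/-!
# The two-number of a compact symmetric space can be smaller than its total mod 2 Betti number

Let `S³` be the unit sphere of `ℝ⁴`.  The *Segre manifold* `M` is the set of all decomposable
tensors `x ⊗ y ⊗ z` with `x, y, z ∈ S³`; it is the quotient of `S³ × S³ × S³` by the group of
sign changes `(e₁, e₂, e₃)` with `e₁ e₂ e₃ = 1`, and it is a compact connected Riemannian
symmetric space of dimension nine (with the metric induced from `ℝ⁴ ⊗ ℝ⁴ ⊗ ℝ⁴`): the geodesic
symmetry at `x ⊗ y ⊗ z` is the restriction of the tensor product of the three reflections in the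
lines `ℝx`, `ℝy`, `ℝz`.

* Its two-number is `8`.
* Its total mod 2 Betti number is at least `9`: the covering `S³ × S³ × S³ → M` gives two classes
  `a, b` in degree one and the classes `1; a, b; a², ab, b²; a³, a²b, b³` are linearly
  independent, as one sees by evaluating them on the images of the fundamental cycles of the
  projective spaces `ℝP^d`, `d ≤ 3`, under three maps `ℝP³ → M`.

The file starts with the definitions used in the statement.
-/

open scoped Manifold ContDiff Topology TensorProduct RealInnerProductSpace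
open Set Metric

namespace Pool.Agent.Results.MP_efd99a_gt.SegreCounterexample

/-! ## Definitions used in the statement -/

section Cohomology

/-- A singular `n`-simplex of the space `X`: a continuous map from the standard `n`-simplex
to `X`. -/
abbrev Simp (X : Type) [TopologicalSpace X] (n : ℕ) : Type :=
  C(stdSimplex ℝ (Fin (n + 1)), X)

/-- The `i`-th face of a singular simplex: its composition with the affine map of standard
simplices which omits the `i`-th vertex. -/
noncomputable def face {X : Type} [TopologicalSpace X] {n : ℕ} (σ : Simp X (n + 1))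
    (i : Fin (n + 2)) : Simp X n :=
  σ.comp ⟨stdSimplex.map i.succAbove, stdSimplex.continuous_map _⟩

/-- The coboundary operator of the singular cochain complex of `X` with coefficients in `ℤ/2`
(no signs are needed modulo two). A cochain of degree `n` is a function on singular
`n`-simplices with values in `ℤ/2`. -/
noncomputable def coboundary (X : Type) [TopologicalSpace X] (n : ℕ) :
    (Simp X n → ZMod 2) →ₗ[ZMod 2] (Simp X (n + 1) → ZMod 2) where
  toFun c σ := ∑ i, c (face σ i)
  map_add' c d := by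
    funext σ
    simp [Finset.sum_add_distrib]
  map_smul' r c := by
    funext σ
    simp [Finset.mul_sum]

/-- The singular coboundaries of degree `n` with coefficients in `ℤ/2`. -/
noncomputable def coboundaries (X : Type) [TopologicalSpace X] :
    (n : ℕ) → Submodule (ZMod 2) (Simp X n → ZMod 2)
  | 0 => ⊥
  | n + 1 => LinearMap.range (coboundary X n)

/-- Singular cohomology `Hⁿ(X; ℤ/2)`: cocycles modulo coboundaries. -/
abbrev SingCohomology (X : Type) [TopologicalSpace X] (n : ℕ) : Type :=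
  LinearMap.ker (coboundary X n) ⧸ (coboundaries X n).submoduleOf (LinearMap.ker (coboundary X n))

/-- The total mod 2 Betti number `∑ₙ dim Hⁿ(X; ℤ/2)`, as a cardinal number. -/
noncomputable def totalBetti (X : Type) [TopologicalSpace X] : Cardinal :=
  Cardinal.sum fun n : ℕ => Module.rank (ZMod 2) (SingCohomology X n)

end Cohomology

section SymmetricSpace

/-- The structure of a Riemannian symmetric space on a smooth manifold `M` modelled on `I`: a
smooth Riemannian metric and, for every point `x`, the geodesic symmetry `sym x`, that is, a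
bijective smooth isometry of `M` which fixes `x` and whose differential at `x` is `-1`. -/
structure RiemannianSymmetricSpace {E : Type} [NormedAddCommGroup E] [NormedSpace ℝ E]
    {H : Type} [TopologicalSpace H] (I : ModelWithCorners ℝ E H)
    (M : Type) [TopologicalSpace M] [ChartedSpace H M] [IsManifold I ∞ M] where
  /-- the Riemannian metric -/
  metric : Bundle.ContMDiffRiemannianMetric I ∞ E (fun x : M => TangentSpace I x)
  /-- `sym x` is the geodesic symmetry at `x` -/
  sym : M → M → M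
  bijective_sym : ∀ x, Function.Bijective (sym x)
  contMDiff_sym : ∀ x, ContMDiff I I ∞ (sym x)
  isometry_sym : ∀ (x y : M) (v w : TangentSpace I y),
    metric.inner (sym x y) (mfderiv I I (sym x) y v) (mfderiv I I (sym x) y w) =
      metric.inner y v w
  sym_self : ∀ x, sym x x = x
  mfderiv_sym_self : ∀ (x : M) (v : TangentSpace I x), (mfderiv I I (sym x) x v : E) = -(v : E)

variable {E : Type} [NormedAddCommGroup E] [NormedSpace ℝ E]
  {H : Type} [TopologicalSpace H] {I : ModelWithCorners ℝ E H}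
  {M : Type} [TopologicalSpace M] [ChartedSpace H M] [IsManifold I ∞ M]

/-- A subset `A` is antipodal if `s_x(y) = y` for all `x, y ∈ A`. -/
def RiemannianSymmetricSpace.IsAntipodal (S : RiemannianSymmetricSpace I M) (A : Set M) : Prop :=
  ∀ x ∈ A, ∀ y ∈ A, S.sym x y = y

/-- The two-number: the supremum of the cardinalities of the antipodal subsets. -/
noncomputable def RiemannianSymmetricSpace.twoNumber (S : RiemannianSymmetricSpace I M) :
    Cardinal :=
  ⨆ A : {A : Set M // S.IsAntipodal A}, Cardinal.mk A.1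

end SymmetricSpace

/-! ## Quotients of manifolds -/

section Quot

variable {E : Type*} [NormedAddCommGroup E] [NormedSpace ℝ E]
  {H : Type*} [TopologicalSpace H] {I : ModelWithCorners ℝ E H}
  {N : Type*} [TopologicalSpace N] [ChartedSpace H N]
  {M : Type*} [TopologicalSpace M] {f : N → M}

/-- Near a point, a chosen local inverse composed with the covering map is a deck map. -/
lemma eventually_localInverse (hf : IsLocalHomeomorph f) {b₀ a : N}
    (ha : f a ∈ (hf.localInverseAt b₀).source) {γ : N → N} (hγ : Continuous γ)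
    (hγa : γ a = hf.localInverseAt b₀ (f a)) (hfγ : ∀ c, f (γ c) = f c) :
    ∀ᶠ c in 𝓝 a, hf.localInverseAt b₀ (f c) = γ c := by
  have h1 : (hf.localInverseAt b₀).target ∈ 𝓝 (γ a) := by
    rw [hγa]
    exact (hf.localInverseAt b₀).open_target.mem_nhds ((hf.localInverseAt b₀).map_source ha)
  filter_upwards [hγ.continuousAt.preimage_mem_nhds h1] with c hc
  have h2 := (hf.localInverseAt b₀).right_inv hc
  rw [hf.localInverseAt_symm b₀, hfγ c] at h2
  exact h2

variable (hf : IsLocalHomeomorph f) {g : M → N} (hg : Function.RightInverse g f)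
  (hdeck : ∀ a b, f a = f b → ∃ γ : N → N, ContMDiff I I ∞ γ ∧ γ a = b ∧ ∀ c, f (γ c) = f c)

include hdeck in
/-- The quotient of a smooth manifold by a covering map with smooth deck maps is a smooth
manifold. -/
theorem isManifold_quot [IsManifold I ∞ N] :
    letI := hf.chartedSpaceOfRightInverse (H := H) hg
    IsManifold I ∞ M := by
  let _ := hf.chartedSpaceOfRightInverse (H := H) hg
  apply isManifold_of_contDiffOn
  rintro _ _ ⟨q, rfl⟩ ⟨q', rfl⟩
  rintro z ⟨hz1, hz2⟩
  set L := hf.localInverseAt (g q) with hL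
  set L' := hf.localInverseAt (g q') with hL'
  set φ := chartAt H (g q) with hφ
  set φ' := chartAt H (g q') with hφ'
  have hLs : ∀ c, L.symm c = f c := fun c => by rw [hL, hf.localInverseAt_symm]
  simp only [mem_preimage, OpenPartialHomeomorph.trans_source, OpenPartialHomeomorph.symm_source,
    OpenPartialHomeomorph.trans_target, mem_inter_iff, OpenPartialHomeomorph.coe_trans_symm,
    Function.comp_apply] at hz1
  obtain ⟨⟨h1, h2⟩, h3, h4⟩ := hz1
  rw [hLs] at h3 h4
  set a := φ.symm (I.symm z) with ha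
  have hfb : f a = f (L' (f a)) := (hf.apply_localInverseAt_of_mem h3).symm
  obtain ⟨γ, hγ, hγa, hfγ⟩ := hdeck a (L' (f a)) hfb
  have hev := eventually_localInverse hf h3 hγ.continuous hγa hfγ
  have hasrc : a ∈ φ.source := φ.map_target h1
  have hIz : I (I.symm z) = z := I.right_inv hz2
  have hext : extChartAt I (g q) a = z := by
    simp only [extChartAt, OpenPartialHomeomorph.extend, PartialEquiv.coe_trans,
      ModelWithCorners.toPartialEquiv_coe, OpenPartialHomeomorph.toFun_eq_coe, Function.comp_apply]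
    rw [← hφ, ha, φ.right_inv h1, hIz]
  have hsm := hγ a
  rw [contMDiffAt_iff_of_mem_source hasrc (y := g q') (by rw [hγa]; exact h4)] at hsm
  have h5 := hsm.2
  rw [hext] at h5
  have h6 : ContDiffWithinAt ℝ ∞ (I ∘ ((L.trans φ).symm.trans (L'.trans φ')) ∘ I.symm) (range I) z := by
    refine h5.congr_of_eventuallyEq ?_ ?_
    · have hcont : ContinuousAt (fun w => φ.symm (I.symm w)) z :=
        (φ.symm.continuousAt h1).comp I.continuous_symm.continuousAt
      have hev' : ∀ᶠ w in 𝓝 z, L' (f (φ.symm (I.symm w))) = γ (φ.symm (I.symm w)) :=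
        hcont.eventually hev
      filter_upwards [nhdsWithin_le_nhds hev'] with w hw
      simp only [Function.comp_apply, OpenPartialHomeomorph.coe_trans,
        OpenPartialHomeomorph.coe_trans_symm, extChartAt, OpenPartialHomeomorph.extend,
        PartialEquiv.coe_trans, PartialEquiv.coe_trans_symm,
        ModelWithCorners.toPartialEquiv_coe, OpenPartialHomeomorph.toFun_eq_coe,
        ModelWithCorners.toPartialEquiv_coe_symm, OpenPartialHomeomorph.coe_toPartialEquiv_symm, hLs, hw]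
      rfl
    · simp only [Function.comp_apply, OpenPartialHomeomorph.coe_trans,
        OpenPartialHomeomorph.coe_trans_symm, extChartAt, OpenPartialHomeomorph.extend,
        PartialEquiv.coe_trans, PartialEquiv.coe_trans_symm,
        ModelWithCorners.toPartialEquiv_coe, OpenPartialHomeomorph.toFun_eq_coe,
        ModelWithCorners.toPartialEquiv_coe_symm, OpenPartialHomeomorph.coe_toPartialEquiv_symm, hLs]
      rw [← hφ', ← hφ, ← ha, hγa]
  exact h6.mono inter_subset_right

include hdeck in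
/-- The chosen local inverse of the covering map is smooth at the base point. -/
theorem contMDiffAt_localInverse [IsManifold I ∞ N] (q : M) :
    letI := hf.chartedSpaceOfRightInverse (H := H) hg
    ContMDiffAt I I ∞ (hf.localInverseAt (g q)) q := by
  let _ := hf.chartedSpaceOfRightInverse (H := H) hg
  have : IsManifold I ∞ M := isManifold_quot hf hg hdeck
  have hq : q ∈ (hf.localInverseAt (g q)).source := by
    have := hf.apply_self_mem_localInverseAt_source (x := g q)
    rwa [hg q] at this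
  have hLq : hf.localInverseAt (g q) q = g q := by
    have := hf.localInverseAt_apply_self (x := g q)
    rwa [hg q] at this
  have hc : chartAt H q = (hf.localInverseAt (g q)).trans (chartAt H (g q)) := rfl
  have h1 : ContMDiffAt I I ∞ (chartAt H q) q :=
    contMDiffOn_chart.contMDiffAt ((chartAt H q).open_source.mem_nhds (mem_chart_source H q))
  have hval : chartAt H q q = chartAt H (g q) (g q) := by
    rw [hc, OpenPartialHomeomorph.coe_trans, Function.comp_apply, hLq]
  have h2 : ContMDiffAt I I ∞ (chartAt H (g q)).symm (chartAt H q q) := by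
    rw [hval]
    exact contMDiffOn_chart_symm.contMDiffAt
      ((chartAt H (g q)).open_target.mem_nhds (mem_chart_target H (g q)))
  have h3 := h2.comp q h1
  refine h3.congr_of_eventuallyEq ?_
  filter_upwards [(chartAt H q).open_source.mem_nhds (mem_chart_source H q)] with c hc'
  rw [hc] at hc' ⊢
  simp only [OpenPartialHomeomorph.trans_source, mem_inter_iff, mem_preimage] at hc'
  simp only [OpenPartialHomeomorph.coe_trans, Function.comp_apply]
  rw [(chartAt H (g q)).left_inv hc'.2]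

include hdeck in
/-- The covering map is smooth. -/
theorem contMDiff_quotMap [IsManifold I ∞ N] :
    letI := hf.chartedSpaceOfRightInverse (H := H) hg
    ContMDiff I I ∞ f := by
  let _ := hf.chartedSpaceOfRightInverse (H := H) hg
  have : IsManifold I ∞ M := isManifold_quot hf hg hdeck
  have key : ∀ q : M, ContMDiffAt I I ∞ f (g q) := by
    intro q
    have hq : q ∈ (hf.localInverseAt (g q)).source := by
      have := hf.apply_self_mem_localInverseAt_source (x := g q)
      rwa [hg q] at this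
    have hLq : hf.localInverseAt (g q) q = g q := by
      have := hf.localInverseAt_apply_self (x := g q)
      rwa [hg q] at this
    have hc : chartAt H q = (hf.localInverseAt (g q)).trans (chartAt H (g q)) := rfl
    have h1 : ContMDiffAt I I ∞ (chartAt H (g q)) (g q) :=
      contMDiffOn_chart.contMDiffAt
        ((chartAt H (g q)).open_source.mem_nhds (mem_chart_source H (g q)))
    have hval : chartAt H q q = chartAt H (g q) (g q) := by
      rw [hc, OpenPartialHomeomorph.coe_trans, Function.comp_apply, hLq]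
    have h2 : ContMDiffAt I I ∞ (chartAt H q).symm (chartAt H (g q) (g q)) := by
      rw [← hval]
      exact contMDiffOn_chart_symm.contMDiffAt
        ((chartAt H q).open_target.mem_nhds (mem_chart_target H q))
    have h3 := h2.comp (g q) h1
    refine h3.congr_of_eventuallyEq ?_
    filter_upwards [(chartAt H (g q)).open_source.mem_nhds (mem_chart_source H (g q))] with c hc'
    rw [hc]
    simp only [OpenPartialHomeomorph.coe_trans_symm, Function.comp_apply]
    rw [(chartAt H (g q)).left_inv hc', hf.localInverseAt_symm]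
  intro a
  obtain ⟨γ, hγ, hγa, hfγ⟩ := hdeck a (g (f a)) (hg (f a)).symm
  have h4 : ContMDiffAt I I ∞ f (γ a) := by rw [hγa]; exact key (f a)
  have h5 := h4.comp a (hγ a)
  have h6 : f ∘ γ = f := funext hfγ
  rwa [h6] at h5

include hdeck in
/-- A map out of the quotient is smooth as soon as its composition with the covering map is. -/
theorem contMDiff_of_comp_quotMap [IsManifold I ∞ N]
    {E' : Type*} [NormedAddCommGroup E'] [NormedSpace ℝ E']
    {H' : Type*} [TopologicalSpace H'] {J : ModelWithCorners ℝ E' H'}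
    {P : Type*} [TopologicalSpace P] [ChartedSpace H' P] {h : M → P}
    (hh : ContMDiff I J ∞ (h ∘ f)) :
    letI := hf.chartedSpaceOfRightInverse (H := H) hg
    ContMDiff I J ∞ h := by
  let _ := hf.chartedSpaceOfRightInverse (H := H) hg
  have : IsManifold I ∞ M := isManifold_quot hf hg hdeck
  intro q
  have hq : q ∈ (hf.localInverseAt (g q)).source := by
    have := hf.apply_self_mem_localInverseAt_source (x := g q)
    rwa [hg q] at this
  have h1 := contMDiffAt_localInverse hf hg hdeck q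
  have h2 := (hh (hf.localInverseAt (g q) q)).comp q h1
  refine h2.congr_of_eventuallyEq ?_
  filter_upwards [(hf.localInverseAt (g q)).open_source.mem_nhds hq] with c hc
  simp only [Function.comp_apply]
  rw [hf.apply_localInverseAt_of_mem hc]

include hdeck in
/-- The derivative of the covering map is onto at the chosen preimages. -/
theorem surjective_mfderiv_quotMap [IsManifold I ∞ N] (q : M) :
    letI := hf.chartedSpaceOfRightInverse (H := H) hg
    ∀ v : TangentSpace I q, ∃ u : TangentSpace I (g q), mfderiv I I f (g q) u = v := by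
  let _ := hf.chartedSpaceOfRightInverse (H := H) hg
  have : IsManifold I ∞ M := isManifold_quot hf hg hdeck
  intro v
  have hq : q ∈ (hf.localInverseAt (g q)).source := by
    have := hf.apply_self_mem_localInverseAt_source (x := g q)
    rwa [hg q] at this
  have hLq : hf.localInverseAt (g q) q = g q := by
    have := hf.localInverseAt_apply_self (x := g q)
    rwa [hg q] at this
  have h1 : MDifferentiableAt I I (hf.localInverseAt (g q)) q :=
    (contMDiffAt_localInverse hf hg hdeck q).mdifferentiableAt (by simp)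
  have h2 : MDifferentiableAt I I f (hf.localInverseAt (g q) q) :=
    (contMDiff_quotMap hf hg hdeck _).mdifferentiableAt (by simp)
  have h3 := mfderiv_comp q h2 h1
  have h4 : f ∘ (hf.localInverseAt (g q)) =ᶠ[𝓝 q] id := by
    filter_upwards [(hf.localInverseAt (g q)).open_source.mem_nhds hq] with c hc
    simp only [Function.comp_apply, id]
    rw [hf.apply_localInverseAt_of_mem hc]
  rw [h4.mfderiv_eq, mfderiv_id] at h3
  have h5 : (mfderiv I I f (hf.localInverseAt (g q) q) : E →L[ℝ] E) =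
      (mfderiv I I f (g q) : E →L[ℝ] E) := by
    rw [hLq]
  have h6 : ∀ w : E, w = (mfderiv I I f (hf.localInverseAt (g q) q) : E →L[ℝ] E)
      ((mfderiv I I (hf.localInverseAt (g q)) q : E →L[ℝ] E) w) := fun w =>
    congrArg (fun A : E →L[ℝ] E => A w) h3
  refine ⟨(mfderiv I I (hf.localInverseAt (g q)) q : E →L[ℝ] E) v, ?_⟩
  have h7 := h6 v
  rw [h5] at h7
  exact h7.symm

end Quot

/-! ## Metrics induced by immersions -/

section Metric

open Bundle ContinuousLinearMap

variable {E : Type*} [NormedAddCommGroup E] [NormedSpace ℝ E]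
  {H : Type*} [TopologicalSpace H] {I : ModelWithCorners ℝ E H}
  {M : Type*} [TopologicalSpace M] [ChartedSpace H M]
  {W : Type*} [NormedAddCommGroup W] [InnerProductSpace ℝ W]

variable (W) in
/-- The real inner product as a continuous bilinear map. -/
noncomputable def realInner : W →L[ℝ] W →L[ℝ] ℝ := innerSL ℝ

lemma realInner_apply (v w : W) : realInner W v w = inner ℝ v w := rfl

variable (I) in
/-- The pull-back of the inner product of `W` under the derivative of `ι : M → W`. -/
noncomputable def pullbackInner (ι : M → W) (b : M) :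
    TangentSpace I b →L[ℝ] TangentSpace I b →L[ℝ] ℝ :=
  ((realInner W).bilinearComp (mfderiv I 𝓘(ℝ, W) ι b : E →L[ℝ] W)
    (mfderiv I 𝓘(ℝ, W) ι b : E →L[ℝ] W) : E →L[ℝ] E →L[ℝ] ℝ)

lemma pullbackInner_apply (ι : M → W) (b : M) (v w : TangentSpace I b) :
    pullbackInner I ι b v w =
      inner ℝ (mfderiv I 𝓘(ℝ, W) ι b v : W) (mfderiv I 𝓘(ℝ, W) ι b w : W) := rfl

lemma flip_contDiff {E W : Type*} [NormedAddCommGroup E] [NormedSpace ℝ E]
    [NormedAddCommGroup W] [NormedSpace ℝ W] :
    ContDiff ℝ ∞ (fun T : E →L[ℝ] W →L[ℝ] ℝ => T.flip) := by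
  let F : (E →L[ℝ] W →L[ℝ] ℝ) →L[ℝ] (W →L[ℝ] E →L[ℝ] ℝ) :=
    (ContinuousLinearMap.flipₗᵢ ℝ E W ℝ).toContinuousLinearEquiv
  exact ContinuousLinearMap.contDiff (𝕜 := ℝ) (E := E →L[ℝ] W →L[ℝ] ℝ)
    (F := W →L[ℝ] E →L[ℝ] ℝ) F

theorem contMDiff_pullbackInner [IsManifold I ∞ M] {ι : M → W} (hι : ContMDiff I 𝓘(ℝ, W) ∞ ι) :
    ContMDiff I (I.prod 𝓘(ℝ, E →L[ℝ] E →L[ℝ] ℝ)) ∞
      (fun b ↦ TotalSpace.mk' (E →L[ℝ] E →L[ℝ] ℝ)
        (E := fun b : M => TangentSpace I b →L[ℝ] TangentSpace I b →L[ℝ] ℝ)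
        b (pullbackInner I ι b)) := by
  intro x
  rw [contMDiffAt_section]
  have h1 := (hι x).mfderiv_const (m := ∞) (n := ∞) (by simp)
  set A := inTangentCoordinates I 𝓘(ℝ, W) id ι (mfderiv I 𝓘(ℝ, W) ι) x with hA
  have h2 : ContMDiffAt I 𝓘(ℝ, E →L[ℝ] E →L[ℝ] ℝ) ∞
      (fun b => (realInner W).bilinearComp (A b) (A b)) x := by
    have h3 : ContDiff ℝ ∞ (fun B : E →L[ℝ] W => (realInner W).bilinearComp B B) := by
      unfold ContinuousLinearMap.bilinearComp
      have h4 : ContDiff ℝ ∞ (fun B : E →L[ℝ] W => (realInner W).comp B) :=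
        contDiff_const.clm_comp contDiff_id
      have h5 : ContDiff ℝ ∞ (fun B : E →L[ℝ] W => ((realInner W).comp B).flip) :=
        flip_contDiff.comp h4
      have h6 : ContDiff ℝ ∞ (fun B : E →L[ℝ] W => (((realInner W).comp B).flip).comp B) :=
        h5.clm_comp contDiff_id
      exact flip_contDiff.comp h6
    exact h3.contMDiff.contMDiffAt.comp x h1
  refine h2.congr_of_eventuallyEq ?_
  have hbase : (trivializationAt E (TangentSpace I : M → Type _) x).baseSet =
      (chartAt H x).source := rfl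
  filter_upwards [(chartAt H x).open_source.mem_nhds (mem_chart_source H x)] with b hb
  ext v w
  rw [hom_trivializationAt_apply]
  have h7 := inCoordinates_apply_eq₂ (𝕜 := ℝ) (F₁ := E) (E₁ := (TangentSpace I : M → Type _))
    (F₂ := E) (E₂ := (TangentSpace I : M → Type _)) (F₃ := ℝ) (E₃ := fun _ : M => ℝ)
    (x₀ := x) (x := b) (ϕ := pullbackInner I ι b) (v := v) (w := w)
    (by rw [hbase]; exact hb) (by rw [hbase]; exact hb) (by simp)
  refine Eq.trans h7 ?_
  have hb' : b ∈ (trivializationAt E (TangentSpace I : M → Type _) x).baseSet := by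
    rw [hbase]; exact hb
  have hs : ∀ u : E, (A b) u = (mfderiv I 𝓘(ℝ, W) ι b : E →L[ℝ] W)
      ((trivializationAt E (TangentSpace I : M → Type _) x).symm b u : E) := by
    intro u
    rw [← Trivialization.symmL_apply (R := ℝ) _ hb' u]
    simp [ContinuousLinearMap.inCoordinates, hA, inTangentCoordinates]
    rfl
  simp only [ContinuousLinearMap.bilinearComp_apply, hs]
  simp
  rfl

/-- The Riemannian metric induced by an immersion into an inner product space. -/
noncomputable def pullbackMetric [FiniteDimensional ℝ E] [IsManifold I ∞ M] {ι : M → W}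
    (hι : ContMDiff I 𝓘(ℝ, W) ∞ ι)
    (hinj : ∀ b (v : TangentSpace I b), mfderiv I 𝓘(ℝ, W) ι b v = 0 → v = 0) :
    ContMDiffRiemannianMetric I ∞ E (fun b : M => TangentSpace I b) where
  inner b := pullbackInner I ι b
  symm b v w := by
    rw [pullbackInner_apply, pullbackInner_apply]
    exact real_inner_comm _ _
  pos b v hv := by
    rw [pullbackInner_apply]
    exact real_inner_self_pos.2 (fun h => hv (hinj b v h))
  isVonNBounded b := by
    let A : E →L[ℝ] W := mfderiv I 𝓘(ℝ, W) ι b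
    have hker : LinearMap.ker (A : E →ₗ[ℝ] W) = ⊥ := by
      rw [LinearMap.ker_eq_bot']
      intro v hv
      exact hinj b v hv
    obtain ⟨K, hK, hA⟩ := LinearMap.exists_antilipschitzWith (A : E →ₗ[ℝ] W) hker
    change Bornology.IsVonNBounded ℝ {v : E | inner ℝ (A v) (A v) < 1}
    rw [NormedSpace.isVonNBounded_iff]
    refine (Metric.isBounded_closedBall (x := (0 : E)) (r := K)).subset ?_
    intro v hv
    rw [mem_closedBall_zero_iff]
    have h1 : ‖v‖ ≤ K * ‖A v‖ := by
      have := hA.le_mul_dist v 0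
      simpa using this
    have h2 : ‖A v‖ ≤ 1 := by
      have h3 : ‖A v‖ ^ 2 < 1 := by
        rw [← real_inner_self_eq_norm_sq]
        exact hv
      nlinarith [norm_nonneg (A v)]
    have hK' : (0 : ℝ) ≤ K := K.2
    nlinarith
  contMDiff := contMDiff_pullbackInner hι

end Metric

/-! ## The Segre manifold -/

/-- Euclidean four-space. -/
abbrev E4 : Type := EuclideanSpace ℝ (Fin 4)

/-- The unit three-sphere. -/
abbrev S3 : Type := sphere (0 : E4) 1

instance factE4 : Fact (Module.finrank ℝ E4 = 3 + 1) := ⟨by simp⟩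

/-- The Euclidean space of 3-tensors. -/
abbrev W3 : Type := E4 ⊗[ℝ] (E4 ⊗[ℝ] E4)

/-- The product of three three-spheres. -/
abbrev N3 : Type := S3 × S3 × S3

/-- model with corners of `N3` -/
noncomputable abbrev IN : ModelWithCorners ℝ (EuclideanSpace ℝ (Fin 3) × EuclideanSpace ℝ (Fin 3) ×
  EuclideanSpace ℝ (Fin 3)) (ModelProd (EuclideanSpace ℝ (Fin 3)) (ModelProd
    (EuclideanSpace ℝ (Fin 3)) (EuclideanSpace ℝ (Fin 3)))) := (𝓡 3).prod ((𝓡 3).prod (𝓡 3))

example : IsManifold IN ∞ N3 := inferInstance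

/-- The tensor map. -/
noncomputable def tmap (a : N3) : W3 := (a.1 : E4) ⊗ₜ ((a.2.1 : E4) ⊗ₜ (a.2.2 : E4))

lemma norm_S3 (x : S3) : ‖(x : E4)‖ = 1 := by
  simp

lemma inner_self_S3 (x : S3) : ⟪(x : E4), (x : E4)⟫ = 1 := by
  rw [real_inner_self_eq_norm_sq, norm_S3]; norm_num

lemma inner_tmap (a b : N3) : ⟪tmap a, tmap b⟫ =
    ⟪(a.1 : E4), (b.1 : E4)⟫ * (⟪(a.2.1 : E4), (b.2.1 : E4)⟫ * ⟪(a.2.2 : E4), (b.2.2 : E4)⟫) := by
  simp [tmap, TensorProduct.inner_tmul]

lemma continuous_tmap : Continuous tmap := by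
  unfold tmap
  fun_prop

/-- The group of sign changes. -/
abbrev Gam : Type := ℤˣ × ℤˣ

/-- action of a sign on the sphere -/
noncomputable def sgn (e : ℤˣ) (x : S3) : S3 := if e = 1 then x else -x

lemma sgn_one (x : S3) : sgn 1 x = x := by simp [sgn]

lemma sgn_neg_one (x : S3) : sgn (-1) x = -x := by
  simp [sgn]

lemma sgn_mul (e e' : ℤˣ) (x : S3) : sgn (e * e') x = sgn e (sgn e' x) := by
  rcases Int.units_eq_one_or e with rfl | rfl <;> rcases Int.units_eq_one_or e' with rfl | rfl <;>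
  simp [sgn]

lemma continuous_sgn (e : ℤˣ) : Continuous (sgn e) := by
  rcases Int.units_eq_one_or e with rfl | rfl
  · exact continuous_id.congr (fun x => (sgn_one x).symm)
  · exact continuous_neg.congr (fun x => (sgn_neg_one x).symm)

lemma contMDiff_sgn (e : ℤˣ) : ContMDiff (𝓡 3) (𝓡 3) ∞ (sgn e) := by
  rcases Int.units_eq_one_or e with rfl | rfl
  · exact contMDiff_id.congr (fun x => (sgn_one x))
  · exact (contMDiff_neg_sphere (n := 3)).congr (fun x => (sgn_neg_one x))

lemma coe_sgn (e : ℤˣ) (x : S3) : ((sgn e x : S3) : E4) = ((e : ℤ) : ℝ) • (x : E4) := by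
  rcases Int.units_eq_one_or e with rfl | rfl
  · simp [sgn]
  · simp [sgn]

lemma sgn_eq_self {e : ℤˣ} {x : S3} (h : sgn e x = x) : e = 1 := by
  rcases Int.units_eq_one_or e with rfl | rfl
  · rfl
  · exfalso
    rw [sgn_neg_one] at h
    have h1 := congrArg (fun y : S3 => ⟪(y : E4), (x : E4)⟫) h
    simp only [coe_neg_sphere, inner_neg_left, inner_self_S3] at h1
    norm_num at h1

noncomputable instance : MulAction Gam N3 where
  smul g a := (sgn g.1 a.1, sgn g.2 a.2.1, sgn (g.1 * g.2) a.2.2)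
  one_smul a := by
    change (sgn 1 a.1, sgn 1 a.2.1, sgn (1 * 1) a.2.2) = a
    simp [sgn_one]
  mul_smul g h a := by
    change (sgn (g.1 * h.1) a.1, sgn (g.2 * h.2) a.2.1, sgn ((g.1 * h.1) * (g.2 * h.2)) a.2.2) =
      (sgn g.1 (sgn h.1 a.1), sgn g.2 (sgn h.2 a.2.1), sgn (g.1 * g.2) (sgn (h.1 * h.2) a.2.2))
    rw [sgn_mul, sgn_mul, ← sgn_mul (g.1 * g.2)]
    congr 3
    exact mul_mul_mul_comm _ _ _ _

lemma smul_def (g : Gam) (a : N3) : g • a = (sgn g.1 a.1, sgn g.2 a.2.1, sgn (g.1 * g.2) a.2.2) :=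
  rfl

instance : ContinuousConstSMul Gam N3 where
  continuous_const_smul g := by
    simp only [smul_def]
    exact ((continuous_sgn _).comp continuous_fst).prodMk
      (((continuous_sgn _).comp (continuous_fst.comp continuous_snd)).prodMk
        ((continuous_sgn _).comp (continuous_snd.comp continuous_snd)))

instance : IsCancelSMul Gam N3 where
  right_cancel' g g' a h := by
    have h1 : (g'⁻¹ * g) • a = a := by rw [mul_smul, h, inv_smul_smul]
    rw [smul_def] at h1
    have h2 := sgn_eq_self (congrArg Prod.fst h1)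
    have h3 := sgn_eq_self (congrArg (fun b => b.2.1) h1)
    have h4 : g'⁻¹ * g = 1 := Prod.ext h2 h3
    exact (inv_mul_eq_one.mp h4).symm

example : ProperlyDiscontinuousSMul Gam N3 := inferInstance

/-- Unit vectors with inner product of absolute value one. -/
lemma exists_sgn_of_abs {x y : S3} (h : |⟪(x : E4), (y : E4)⟫| = 1) :
    ∃ e : ℤˣ, x = sgn e y ∧ ⟪(x : E4), (y : E4)⟫ = ((e : ℤ) : ℝ) := by
  rcases eq_or_eq_neg_of_abs_eq h with h | h
  · refine ⟨1, ?_, by simpa using h⟩
    rw [sgn_one]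
    exact Subtype.ext ((inner_eq_one_iff_of_norm_eq_one (norm_S3 x) (norm_S3 y)).mp h)
  · refine ⟨-1, ?_, by simpa using h⟩
    rw [sgn_neg_one]
    have h1 : ⟪(x : E4), ((-y : S3) : E4)⟫ = 1 := by
      rw [coe_neg_sphere, inner_neg_right, h, neg_neg]
    exact Subtype.ext ((inner_eq_one_iff_of_norm_eq_one (norm_S3 x) (norm_S3 (-y))).mp h1)

lemma abs_inner_S3_le (x y : S3) : |⟪(x : E4), (y : E4)⟫| ≤ 1 := by
  have := abs_real_inner_le_norm (x : E4) (y : E4)
  rwa [norm_S3, norm_S3, mul_one] at this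

/-- three numbers of absolute value at most one with product of absolute value one -/
lemma abs_eq_one_of_mul {a b c : ℝ} (ha : |a| ≤ 1) (hb : |b| ≤ 1) (hc : |c| ≤ 1)
    (h : |a * (b * c)| = 1) : |a| = 1 ∧ |b| = 1 ∧ |c| = 1 := by
  rw [abs_mul, abs_mul] at h
  have h0a := abs_nonneg a
  have h0b := abs_nonneg b
  have h0c := abs_nonneg c
  have hbc : |b| * |c| ≤ 1 := by nlinarith
  have hbc0 : 0 ≤ |b| * |c| := by positivity
  refine ⟨by nlinarith, ?_, ?_⟩
  · have h1 : |b| * |c| = 1 := by nlinarith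
    nlinarith
  · have h1 : |b| * |c| = 1 := by nlinarith
    nlinarith

lemma tmap_smul (g : Gam) (a : N3) : tmap (g • a) = tmap a := by
  have h : ∀ e e' : ℤˣ, ((e : ℤ) : ℝ) * (((e' : ℤ) : ℝ) * (((e * e' : ℤˣ) : ℤ) : ℝ)) = 1 := by
    intro e e'
    rcases Int.units_eq_one_or e with rfl | rfl <;>
      rcases Int.units_eq_one_or e' with rfl | rfl <;> norm_num
  simp only [tmap, smul_def, coe_sgn, ← TensorProduct.smul_tmul', TensorProduct.tmul_smul,
    smul_smul]
  have h2 : ((((g.1 * g.2 : ℤˣ)) : ℤ) : ℝ) * ((g.2 : ℤ) : ℝ) * ((g.1 : ℤ) : ℝ) = 1 := by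
    rw [← h g.1 g.2]; ring
  rw [h2, one_smul]

lemma tmap_eq_iff {a b : N3} : tmap a = tmap b ↔ a ∈ MulAction.orbit Gam b := by
  constructor
  · intro h
    have h1 : ⟪tmap a, tmap b⟫ = 1 := by
      rw [h, inner_tmap, inner_self_S3, inner_self_S3, inner_self_S3]; norm_num
    rw [inner_tmap] at h1
    obtain ⟨ha, hb, hc⟩ := abs_eq_one_of_mul (abs_inner_S3_le a.1 b.1)
      (abs_inner_S3_le a.2.1 b.2.1) (abs_inner_S3_le a.2.2 b.2.2) (by rw [h1]; norm_num)
    obtain ⟨e1, he1, hi1⟩ := exists_sgn_of_abs ha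
    obtain ⟨e2, he2, hi2⟩ := exists_sgn_of_abs hb
    obtain ⟨e3, he3, hi3⟩ := exists_sgn_of_abs hc
    rw [hi1, hi2, hi3] at h1
    have h3 : e3 = e1 * e2 := by
      rcases Int.units_eq_one_or e1 with rfl | rfl <;>
      rcases Int.units_eq_one_or e2 with rfl | rfl <;>
      rcases Int.units_eq_one_or e3 with rfl | rfl <;>
      first | rfl | (exfalso; norm_num at h1)
    refine ⟨(e1, e2), ?_⟩
    change (sgn e1 b.1, sgn e2 b.2.1, sgn (e1 * e2) b.2.2) = a
    rw [← he1, ← he2, ← h3, ← he3]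
  · rintro ⟨g, rfl⟩
    exact tmap_smul g b

/-- The Segre manifold of decomposable unit tensors. -/
abbrev M3 : Type := ↥(Set.range tmap)

/-- The covering map `N3 → M3`. -/
noncomputable def fmap : N3 → M3 := Set.rangeFactorization tmap

lemma coe_fmap (a : N3) : ((fmap a : M3) : W3) = tmap a := rfl

lemma continuous_fmap : Continuous fmap := continuous_tmap.rangeFactorization

lemma surjective_fmap : Function.Surjective fmap := Set.rangeFactorization_surjective

instance : CompactSpace M3 := isCompact_iff_compactSpace.mp (isCompact_range continuous_tmap)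

instance : ConnectedSpace S3 := by
  have h : IsPathConnected (sphere (0 : E4) 1) :=
    isPathConnected_sphere (by simp [← Module.finrank_eq_rank]) 0 zero_le_one
  have := isPathConnected_iff_pathConnectedSpace.mp h
  infer_instance

instance : ConnectedSpace M3 := by
  exact surjective_fmap.connectedSpace continuous_fmap

lemma fmap_eq_iff {a b : N3} : fmap a = fmap b ↔ a ∈ MulAction.orbit Gam b := by
  rw [← tmap_eq_iff, ← coe_fmap, ← coe_fmap, Subtype.ext_iff]

lemma isQuotientCoveringMap_fmap : IsQuotientCoveringMap fmap Gam := by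
  have h1 : Topology.IsQuotientMap fmap :=
    continuous_fmap.isClosedMap.isQuotientMap continuous_fmap surjective_fmap
  exact h1.isQuotientCoveringMap_of_properlyDiscontinuousSMul fmap_eq_iff

lemma isCoveringMap_fmap : IsCoveringMap fmap := isQuotientCoveringMap_fmap.isCoveringMap

/-- a section -/
noncomputable def gsec : M3 → N3 := Function.surjInv surjective_fmap

lemma fmap_gsec : Function.RightInverse gsec fmap := Function.rightInverse_surjInv surjective_fmap

noncomputable instance : ChartedSpace (ModelProd (EuclideanSpace ℝ (Fin 3)) (ModelProd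
    (EuclideanSpace ℝ (Fin 3)) (EuclideanSpace ℝ (Fin 3)))) M3 :=
  isCoveringMap_fmap.isLocalHomeomorph.chartedSpaceOfRightInverse fmap_gsec

lemma fmap_deck (a b : N3) (h : fmap a = fmap b) :
    ∃ γ : N3 → N3, ContMDiff IN IN ∞ γ ∧ γ a = b ∧ ∀ c, fmap (γ c) = fmap c := by
  obtain ⟨g, hg⟩ := fmap_eq_iff.mp h.symm
  refine ⟨fun c => g • c, ?_, hg, fun c => fmap_eq_iff.mpr ⟨g, rfl⟩⟩
  simp only [smul_def]
  exact ((contMDiff_sgn _).comp contMDiff_fst).prodMk
    (((contMDiff_sgn _).comp (contMDiff_fst.comp contMDiff_snd)).prodMk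
      ((contMDiff_sgn _).comp (contMDiff_snd.comp contMDiff_snd)))

instance : IsManifold IN ∞ M3 :=
  isManifold_quot isCoveringMap_fmap.isLocalHomeomorph fmap_gsec fmap_deck

lemma contMDiff_fmap : ContMDiff IN IN ∞ fmap :=
  contMDiff_quotMap isCoveringMap_fmap.isLocalHomeomorph fmap_gsec fmap_deck

lemma contMDiff_of_comp_fmap {E' : Type*} [NormedAddCommGroup E'] [NormedSpace ℝ E']
    {H' : Type*} [TopologicalSpace H'] {J : ModelWithCorners ℝ E' H'}
    {P : Type*} [TopologicalSpace P] [ChartedSpace H' P] {h : M3 → P}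
    (hh : ContMDiff IN J ∞ (h ∘ fmap)) : ContMDiff IN J ∞ h :=
  contMDiff_of_comp_quotMap isCoveringMap_fmap.isLocalHomeomorph fmap_gsec fmap_deck hh

lemma surjective_mfderiv_fmap (q : M3) (v : TangentSpace IN q) :
    ∃ u : TangentSpace IN (gsec q), mfderiv IN IN fmap (gsec q) u = v :=
  surjective_mfderiv_quotMap isCoveringMap_fmap.isLocalHomeomorph fmap_gsec fmap_deck q v

/-- The derivative of the inclusion of the sphere. -/
noncomputable def Dc (x : S3) : EuclideanSpace ℝ (Fin 3) →L[ℝ] E4 :=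
  mfderiv (𝓡 3) 𝓘(ℝ, E4) ((↑) : S3 → E4) x

lemma Dc_injective (x : S3) : Function.Injective (Dc x) := mfderiv_coe_sphere_injective x

lemma Dc_orthogonal (x : S3) (u : EuclideanSpace ℝ (Fin 3)) : ⟪(x : E4), Dc x u⟫ = 0 := by
  have h := range_mfderiv_coe_sphere (n := 3) x
  have h1 : Dc x u ∈ (ℝ ∙ (x : E4))ᗮ := by
    rw [← h]
    exact ⟨u, rfl⟩
  exact Submodule.mem_orthogonal_singleton_iff_inner_right.mp h1

/-- the trilinear tensor map -/
noncomputable def tri (q : E4 × (E4 × E4)) : W3 := q.1 ⊗ₜ (q.2.1 ⊗ₜ q.2.2)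

lemma tri_eq (q : E4 × (E4 × E4)) :
    tri q = TensorProduct.mkL ℝ E4 (E4 ⊗[ℝ] E4) q.1 (TensorProduct.mkL ℝ E4 E4 q.2.1 q.2.2) := rfl

lemma contDiff_tri : ContDiff ℝ ∞ tri := by
  have h1 : ContDiff ℝ ∞ (fun q : E4 × (E4 × E4) => TensorProduct.mkL ℝ E4 E4 q.2.1 q.2.2) :=
    ((TensorProduct.mkL ℝ E4 E4).contDiff.comp (contDiff_fst.comp contDiff_snd)).clm_apply
      (contDiff_snd.comp contDiff_snd)
  exact ((TensorProduct.mkL ℝ E4 (E4 ⊗[ℝ] E4)).contDiff.comp contDiff_fst).clm_apply h1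

lemma hasFDerivAt_tri (q : E4 × (E4 × E4)) :
    ∃ T' : E4 × (E4 × E4) →L[ℝ] W3, HasFDerivAt tri T' q ∧
      ∀ v, T' v = v.1 ⊗ₜ (q.2.1 ⊗ₜ q.2.2) + (q.1 ⊗ₜ (v.2.1 ⊗ₜ q.2.2) + q.1 ⊗ₜ (q.2.1 ⊗ₜ v.2.2)) := by
  have hA : HasFDerivAt (fun q : E4 × (E4 × E4) => q.2.1)
    ((ContinuousLinearMap.fst ℝ E4 E4).comp (ContinuousLinearMap.snd ℝ E4 (E4 × E4))) q :=
    ((ContinuousLinearMap.fst ℝ E4 E4).comp (ContinuousLinearMap.snd ℝ E4 (E4 × E4))).hasFDerivAt
  have hB : HasFDerivAt (fun q : E4 × (E4 × E4) => q.2.2)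
    ((ContinuousLinearMap.snd ℝ E4 E4).comp (ContinuousLinearMap.snd ℝ E4 (E4 × E4))) q :=
    ((ContinuousLinearMap.snd ℝ E4 E4).comp (ContinuousLinearMap.snd ℝ E4 (E4 × E4))).hasFDerivAt
  have h1 := (TensorProduct.mkL ℝ E4 E4).hasFDerivAt_of_bilinear hA hB
  have hC : HasFDerivAt (fun q : E4 × (E4 × E4) => q.1)
    (ContinuousLinearMap.fst ℝ E4 (E4 × E4)) q := (ContinuousLinearMap.fst ℝ E4 (E4 × E4)).hasFDerivAt
  have h2 := (TensorProduct.mkL ℝ E4 (E4 ⊗[ℝ] E4)).hasFDerivAt_of_bilinear hC h1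
  refine ⟨_, h2, ?_⟩
  intro v
  simp
  abel

/-- the model vector space of the tangent spaces of `N3` -/
abbrev EN : Type := EuclideanSpace ℝ (Fin 3) × EuclideanSpace ℝ (Fin 3) × EuclideanSpace ℝ (Fin 3)

/-- inclusion of `N3` in the product of Euclidean spaces -/
def incl (a : N3) : E4 × (E4 × E4) := ((a.1 : E4), ((a.2.1 : E4), (a.2.2 : E4)))

lemma tmap_eq (a : N3) : tmap a = tri (incl a) := rfl

lemma contMDiff_incl : ContMDiff IN 𝓘(ℝ, E4 × (E4 × E4)) ∞ incl :=
  (contMDiff_coe_sphere.comp contMDiff_fst).prodMk_space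
    ((contMDiff_coe_sphere.comp (contMDiff_fst.comp contMDiff_snd)).prodMk_space
      (contMDiff_coe_sphere.comp (contMDiff_snd.comp contMDiff_snd)))

lemma contMDiff_tmap : ContMDiff IN 𝓘(ℝ, W3) ∞ tmap :=
  contDiff_tri.contMDiff.comp contMDiff_incl

lemma hasMFDerivAt_coe (x : S3) : HasMFDerivAt (𝓡 3) 𝓘(ℝ, E4) ((↑) : S3 → E4) x (Dc x) :=
  ((contMDiff_coe_sphere (m := ∞) x).mdifferentiableAt (by simp)).hasMFDerivAt

lemma hasMFDerivAt_incl (a : N3) : ∃ C' : EN →L[ℝ] E4 × (E4 × E4),
    HasMFDerivAt IN 𝓘(ℝ, E4 × (E4 × E4)) incl a C' ∧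
    ∀ v : EN, C' v = (Dc a.1 v.1, (Dc a.2.1 v.2.1, Dc a.2.2 v.2.2)) := by
  have h1 : HasMFDerivAt IN 𝓘(ℝ, E4) (fun a : N3 => (a.1 : E4)) a
      ((Dc a.1).comp (ContinuousLinearMap.fst ℝ _ _)) :=
    (hasMFDerivAt_coe a.1).comp a (hasMFDerivAt_fst a)
  have h2 : HasMFDerivAt IN 𝓘(ℝ, E4) (fun a : N3 => (a.2.1 : E4)) a
      (((Dc a.2.1).comp (ContinuousLinearMap.fst ℝ _ _)).comp (ContinuousLinearMap.snd ℝ _ _)) :=
    ((hasMFDerivAt_coe a.2.1).comp a.2 (hasMFDerivAt_fst a.2)).comp a (hasMFDerivAt_snd a)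
  have h3 : HasMFDerivAt IN 𝓘(ℝ, E4) (fun a : N3 => (a.2.2 : E4)) a
      (((Dc a.2.2).comp (ContinuousLinearMap.snd ℝ _ _)).comp (ContinuousLinearMap.snd ℝ _ _)) :=
    ((hasMFDerivAt_coe a.2.2).comp a.2 (hasMFDerivAt_snd a.2)).comp a (hasMFDerivAt_snd a)
  have h4 : HasMFDerivAt IN 𝓘(ℝ, E4 × E4) (fun a : N3 => ((a.2.1 : E4), (a.2.2 : E4))) a _ :=
    ⟨h2.1.prodMk h3.1, h2.2.prodMk h3.2⟩
  have h5 : HasMFDerivAt IN 𝓘(ℝ, E4 × (E4 × E4)) incl a _ :=
    ⟨h1.1.prodMk h4.1, h1.2.prodMk h4.2⟩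
  exact ⟨_, h5, fun v => rfl⟩

/-- The derivative of the tensor map. -/
lemma mfderiv_tmap (a : N3) (v : EN) : (mfderiv IN 𝓘(ℝ, W3) tmap a : EN →L[ℝ] W3) v =
    Dc a.1 v.1 ⊗ₜ ((a.2.1 : E4) ⊗ₜ (a.2.2 : E4)) +
      ((a.1 : E4) ⊗ₜ (Dc a.2.1 v.2.1 ⊗ₜ (a.2.2 : E4)) +
        (a.1 : E4) ⊗ₜ ((a.2.1 : E4) ⊗ₜ Dc a.2.2 v.2.2)) := by
  obtain ⟨C', hC, hC'⟩ := hasMFDerivAt_incl a
  obtain ⟨T', hT, hT'⟩ := hasFDerivAt_tri (incl a)
  have h0 : HasMFDerivAt 𝓘(ℝ, E4 × (E4 × E4)) 𝓘(ℝ, W3) tri (incl a) T' :=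
    HasFDerivAt.hasMFDerivAt (E := E4 × (E4 × E4)) (E' := W3) hT
  have h := h0.comp a hC
  have h1 : tri ∘ incl = tmap := rfl
  rw [h1] at h
  rw [h.mfderiv]
  change T' (C' v) = _
  rw [hT', hC']
  rfl

/-- The derivative of the tensor map is injective. -/
lemma mfderiv_tmap_injective (a : N3) (v : EN)
    (h : (mfderiv IN 𝓘(ℝ, W3) tmap a : EN →L[ℝ] W3) v = 0) : v = 0 := by
  rw [mfderiv_tmap] at h
  have h1 : ∀ e f g : E4, ⟪e, Dc a.1 v.1⟫ * (⟪f, (a.2.1 : E4)⟫ * ⟪g, (a.2.2 : E4)⟫) +
      (⟪e, (a.1 : E4)⟫ * (⟪f, Dc a.2.1 v.2.1⟫ * ⟪g, (a.2.2 : E4)⟫) +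
        ⟪e, (a.1 : E4)⟫ * (⟪f, (a.2.1 : E4)⟫ * ⟪g, Dc a.2.2 v.2.2⟫)) = 0 := by
    intro e f g
    have h2 : ⟪(e ⊗ₜ (f ⊗ₜ g) : W3), (Dc a.1 v.1 ⊗ₜ ((a.2.1 : E4) ⊗ₜ (a.2.2 : E4)) +
      ((a.1 : E4) ⊗ₜ (Dc a.2.1 v.2.1 ⊗ₜ (a.2.2 : E4)) +
        (a.1 : E4) ⊗ₜ ((a.2.1 : E4) ⊗ₜ Dc a.2.2 v.2.2)) : W3)⟫ =
        ⟪(e ⊗ₜ (f ⊗ₜ g) : W3), (0 : W3)⟫ :=
      congrArg (fun t : W3 => ⟪(e ⊗ₜ (f ⊗ₜ g) : W3), t⟫) h
    rw [inner_add_right (𝕜 := ℝ) (E := W3), inner_add_right (𝕜 := ℝ) (E := W3),
      inner_zero_right (𝕜 := ℝ) (E := W3)] at h2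
    simpa only [TensorProduct.inner_tmul] using h2
  have e1 : Dc a.1 v.1 = 0 := by
    have := h1 (Dc a.1 v.1) a.2.1 a.2.2
    rw [Dc_orthogonal, Dc_orthogonal, inner_self_S3, inner_self_S3] at this
    simpa using this
  have e2 : Dc a.2.1 v.2.1 = 0 := by
    have := h1 a.1 (Dc a.2.1 v.2.1) a.2.2
    rw [Dc_orthogonal, Dc_orthogonal, inner_self_S3, inner_self_S3] at this
    simpa using this
  have e3 : Dc a.2.2 v.2.2 = 0 := by
    have := h1 a.1 a.2.1 (Dc a.2.2 v.2.2)
    rw [Dc_orthogonal, Dc_orthogonal, inner_self_S3, inner_self_S3] at this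
    simpa using this
  have hz : ∀ (x : S3) (u : EuclideanSpace ℝ (Fin 3)), Dc x u = 0 → u = 0 := by
    intro x u hu
    exact Dc_injective x (by rw [hu, map_zero])
  exact Prod.ext (hz _ _ e1) (Prod.ext (hz _ _ e2) (hz _ _ e3))

/-- The inclusion of the Segre manifold in the space of tensors. -/
def iota (P : M3) : W3 := P

lemma contMDiff_iota : ContMDiff IN 𝓘(ℝ, W3) ∞ iota :=
  contMDiff_of_comp_fmap (h := iota) contMDiff_tmap

/-- The chain rule for `iota ∘ fmap = tmap`. -/
lemma mfderiv_iota_fmap (a : N3) (u : EN) :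
    (mfderiv IN 𝓘(ℝ, W3) iota (fmap a) : EN →L[ℝ] W3) ((mfderiv IN IN fmap a : EN →L[ℝ] EN) u) =
      (mfderiv IN 𝓘(ℝ, W3) tmap a : EN →L[ℝ] W3) u := by
  have h := mfderiv_comp a ((contMDiff_iota (fmap a)).mdifferentiableAt (by simp))
    ((contMDiff_fmap a).mdifferentiableAt (by simp))
  have h1 : iota ∘ fmap = tmap := rfl
  rw [h1] at h
  rw [h]
  rfl

lemma exists_mfderiv_iota (q : M3) (v : EN) : ∃ u : EN,
    (mfderiv IN IN fmap (gsec q) : EN →L[ℝ] EN) u = v ∧
    (mfderiv IN 𝓘(ℝ, W3) iota q : EN →L[ℝ] W3) v =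
      (mfderiv IN 𝓘(ℝ, W3) tmap (gsec q) : EN →L[ℝ] W3) u := by
  obtain ⟨u, hu⟩ := surjective_mfderiv_fmap q v
  refine ⟨u, hu, ?_⟩
  have h := mfderiv_iota_fmap (gsec q) u
  rw [← h]
  have h1 : (mfderiv IN 𝓘(ℝ, W3) iota (fmap (gsec q)) : EN →L[ℝ] W3) =
      (mfderiv IN 𝓘(ℝ, W3) iota q : EN →L[ℝ] W3) := by rw [fmap_gsec q]
  rw [h1]
  congr 1
  exact hu.symm

/-- The inclusion of the Segre manifold is an immersion. -/
lemma mfderiv_iota_injective (q : M3) (v : TangentSpace IN q)
    (h : mfderiv IN 𝓘(ℝ, W3) iota q v = 0) : v = 0 := by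
  obtain ⟨u, hu, hu'⟩ := exists_mfderiv_iota q v
  have h1 : (mfderiv IN 𝓘(ℝ, W3) tmap (gsec q) : EN →L[ℝ] W3) u = 0 := by
    rw [← hu']; exact h
  have h2 := mfderiv_tmap_injective _ _ h1
  have h3 : (mfderiv IN IN fmap (gsec q) : EN →L[ℝ] EN) u = 0 := by
    rw [h2]
    exact map_zero (mfderiv IN IN fmap (gsec q) : EN →L[ℝ] EN)
  exact hu.symm.trans h3

/-- The Riemannian metric of the Segre manifold. -/
noncomputable def metricM3 : Bundle.ContMDiffRiemannianMetric IN ∞ EN
    (fun q : M3 => TangentSpace IN q) :=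
  pullbackMetric contMDiff_iota mfderiv_iota_injective

/-- The derivative of the inclusion of the Segre manifold. -/
noncomputable def Di (q : M3) : EN →L[ℝ] W3 := mfderiv IN 𝓘(ℝ, W3) iota q

lemma metricM3_inner (q : M3) (v w : TangentSpace IN q) : metricM3.inner q v w =
    ⟪Di q v, Di q w⟫ := rfl

/-- Reflection in the line spanned by a unit vector. -/
noncomputable def refl4 (x : S3) : E4 ≃ₗᵢ[ℝ] E4 := (ℝ ∙ (x : E4)).reflection

lemma refl4_apply (x : S3) (v : E4) : refl4 x v = (2 * ⟪(x : E4), v⟫) • (x : E4) - v := by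
  rw [refl4, Submodule.reflection_singleton_apply]
  simp [two_smul, two_mul, add_smul]

lemma refl4_self (x : S3) : refl4 x (x : E4) = x := by
  rw [refl4_apply, inner_self_S3]
  simp [two_smul]

lemma refl4_orthogonal (x : S3) {v : E4} (h : ⟪(x : E4), v⟫ = 0) : refl4 x v = -v := by
  rw [refl4_apply, h]
  simp

/-- The geodesic symmetry of the sphere `S3` at `x`. -/
noncomputable def sS (x y : S3) : S3 := ⟨refl4 x y, by simp⟩

lemma coe_sS (x y : S3) : ((sS x y : S3) : E4) = refl4 x y := rfl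

lemma sS_self (x : S3) : sS x x = x := Subtype.ext (refl4_self x)

lemma contMDiff_sS (x : S3) : ContMDiff (𝓡 3) (𝓡 3) ∞ (sS x) := by
  have h : ContMDiff (𝓡 3) 𝓘(ℝ, E4) ∞ (fun y : S3 => refl4 x y) :=
    (refl4 x).contDiff.contMDiff.comp contMDiff_coe_sphere
  exact h.codRestrict_sphere (fun y => by simp)

/-- The geodesic symmetry of the product of spheres. -/
noncomputable def sN (a b : N3) : N3 := (sS a.1 b.1, sS a.2.1 b.2.1, sS a.2.2 b.2.2)

lemma sN_self (a : N3) : sN a a = a := by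
  simp only [sN, sS_self]

lemma contMDiff_sN (a : N3) : ContMDiff IN IN ∞ (sN a) :=
  ((contMDiff_sS _).comp contMDiff_fst).prodMk
    (((contMDiff_sS _).comp (contMDiff_fst.comp contMDiff_snd)).prodMk
      ((contMDiff_sS _).comp (contMDiff_snd.comp contMDiff_snd)))

/-- The tensor product of three reflections. -/
noncomputable def refl3 (a : N3) : W3 →ₗᵢ[ℝ] W3 :=
  TensorProduct.mapIsometry (refl4 a.1).toLinearIsometry
    (TensorProduct.mapIsometry (refl4 a.2.1).toLinearIsometry (refl4 a.2.2).toLinearIsometry)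

lemma refl3_tmul (a : N3) (x y z : E4) : refl3 a (x ⊗ₜ (y ⊗ₜ z)) =
    refl4 a.1 x ⊗ₜ (refl4 a.2.1 y ⊗ₜ refl4 a.2.2 z) := rfl

lemma refl3_tmap (a b : N3) : refl3 a (tmap b) = tmap (sN a b) := rfl

/-- The geodesic symmetry of the Segre manifold. -/
noncomputable def sM (P Q : M3) : M3 := fmap (sN (gsec P) (gsec Q))

lemma iota_sM (P Q : M3) : iota (sM P Q) = refl3 (gsec P) (iota Q) := by
  change tmap (sN (gsec P) (gsec Q)) = refl3 (gsec P) (iota Q)
  rw [← refl3_tmap]
  congr 1
  exact congrArg Subtype.val (fmap_gsec Q)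

lemma iota_injective : Function.Injective iota := Subtype.val_injective

lemma sM_fmap (P : M3) (b : N3) : sM P (fmap b) = fmap (sN (gsec P) b) := by
  apply iota_injective
  rw [iota_sM]
  exact refl3_tmap _ _

lemma contMDiff_sM (P : M3) : ContMDiff IN IN ∞ (sM P) := by
  apply contMDiff_of_comp_fmap
  have h : sM P ∘ fmap = fmap ∘ sN (gsec P) := funext (sM_fmap P)
  rw [h]
  exact contMDiff_fmap.comp (contMDiff_sN _)

lemma sM_self (P : M3) : sM P P = P := by
  unfold sM
  rw [sN_self, fmap_gsec]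

lemma sM_sM (P Q : M3) : sM P (sM P Q) = Q := by
  apply iota_injective
  rw [iota_sM, iota_sM]
  have h : ∀ b : N3, refl3 (gsec P) (refl3 (gsec P) (tmap b)) = tmap b := by
    intro b
    have h1 : ∀ (x : S3) (v : E4), refl4 x (refl4 x v) = v := fun x v =>
      Submodule.reflection_reflection _ _
    change refl3 (gsec P) (refl3 (gsec P) ((b.1 : E4) ⊗ₜ ((b.2.1 : E4) ⊗ₜ (b.2.2 : E4)))) = _
    rw [refl3_tmul, refl3_tmul, h1, h1, h1]
    rfl
  have h2 := h (gsec Q)
  have h3 : tmap (gsec Q) = iota Q := congrArg Subtype.val (fmap_gsec Q)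
  rwa [h3] at h2

lemma Di_injective (q : M3) (v w : EN) (h : Di q v = Di q w) : v = w := by
  have h1 : Di q (v - w) = 0 := by rw [map_sub, h, sub_self]
  exact sub_eq_zero.mp (mfderiv_iota_injective q (v - w) h1)

/-- The derivative of the geodesic symmetry, seen in the ambient space. -/
lemma Di_mfderiv_sM (P Q : M3) (v : EN) :
    Di (sM P Q) ((mfderiv IN IN (sM P) Q : EN →L[ℝ] EN) v) = refl3 (gsec P) (Di Q v) := by
  have h1 := mfderiv_comp Q ((contMDiff_iota (sM P Q)).mdifferentiableAt (by simp))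
    ((contMDiff_sM P Q).mdifferentiableAt (by simp))
  have hR : HasMFDerivAt 𝓘(ℝ, W3) 𝓘(ℝ, W3) (refl3 (gsec P)) (iota Q)
      (refl3 (gsec P)).toContinuousLinearMap :=
    HasFDerivAt.hasMFDerivAt (E := W3) (E' := W3)
      ((refl3 (gsec P)).toContinuousLinearMap.hasFDerivAt)
  have h2 := hR.comp Q ((contMDiff_iota Q).mdifferentiableAt (by simp)).hasMFDerivAt
  have h3 : iota ∘ sM P = refl3 (gsec P) ∘ iota := funext (iota_sM P)
  rw [h3, h2.mfderiv] at h1
  exact (congrArg (fun A : EN →L[ℝ] W3 => A v) h1).symm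

lemma refl3_inner (a : N3) (x y : W3) : ⟪refl3 a x, refl3 a y⟫ = ⟪x, y⟫ := by
  rw [refl3]
  simp only [TensorProduct.mapIsometry_apply]
  exact TensorProduct.inner_map_map _ _ _ _

lemma isometry_add_neg (R : W3 →ₗᵢ[ℝ] W3) (A B C : W3) (hA : R A = -A) (hB : R B = -B)
    (hC : R C = -C) : R (A + (B + C)) = -(A + (B + C)) := by
  rw [map_add, map_add, hA, hB, hC, neg_add, neg_add]

/-- The geodesic symmetries are isometries. -/
lemma metricM3_sM (P Q : M3) (v w : TangentSpace IN Q) :
    metricM3.inner (sM P Q) (mfderiv IN IN (sM P) Q v) (mfderiv IN IN (sM P) Q w) =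
      metricM3.inner Q v w := by
  rw [metricM3_inner, metricM3_inner]
  have h1 := Di_mfderiv_sM P Q v
  have h2 := Di_mfderiv_sM P Q w
  refine Eq.trans (congrArg₂ (fun a b : W3 => ⟪a, b⟫) h1 h2) ?_
  exact refl3_inner _ _ _

lemma refl3_mfderiv_tmap (a : N3) (u : EN) :
    refl3 a ((mfderiv IN 𝓘(ℝ, W3) tmap a : EN →L[ℝ] W3) u) =
      -((mfderiv IN 𝓘(ℝ, W3) tmap a : EN →L[ℝ] W3) u) := by
  rw [mfderiv_tmap]
  set A : W3 := Dc a.1 u.1 ⊗ₜ ((a.2.1 : E4) ⊗ₜ (a.2.2 : E4)) with hA
  set B : W3 := (a.1 : E4) ⊗ₜ (Dc a.2.1 u.2.1 ⊗ₜ (a.2.2 : E4)) with hB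
  set C : W3 := (a.1 : E4) ⊗ₜ ((a.2.1 : E4) ⊗ₜ Dc a.2.2 u.2.2) with hC
  have hA' : refl3 a A = -A := by
    rw [hA, refl3_tmul, refl4_self, refl4_self, refl4_orthogonal _ (Dc_orthogonal _ _),
      TensorProduct.neg_tmul]
  have hB' : refl3 a B = -B := by
    rw [hB, refl3_tmul, refl4_self, refl4_self, refl4_orthogonal _ (Dc_orthogonal _ _),
      TensorProduct.neg_tmul, TensorProduct.tmul_neg]
  have hC' : refl3 a C = -C := by
    rw [hC, refl3_tmul, refl4_self, refl4_self, refl4_orthogonal _ (Dc_orthogonal _ _),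
      TensorProduct.tmul_neg, TensorProduct.tmul_neg]
  exact isometry_add_neg (refl3 a) A B C hA' hB' hC'

/-- The geodesic symmetry at `P` has derivative `-1` at `P`. -/
lemma mfderiv_sM_self (P : M3) (v : EN) : (mfderiv IN IN (sM P) P : EN →L[ℝ] EN) v = -v := by
  apply Di_injective P
  have h1 := Di_mfderiv_sM P P v
  obtain ⟨u, hu, hu'⟩ := exists_mfderiv_iota P v
  have h2 : Di P v = (mfderiv IN 𝓘(ℝ, W3) tmap (gsec P) : EN →L[ℝ] W3) u := hu'
  rw [h2, refl3_mfderiv_tmap, ← h2] at h1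
  have h3 : Di (sM P P) = Di P := by rw [sM_self]
  rw [h3] at h1
  rw [h1, map_neg]
  rfl

/-! ## The upper bound for the two-number -/

/-- Three families of coordinates of a point of `N3`. -/
noncomputable def crd (c : Fin 3) (a : N3) : S3 := ![a.1, a.2.1, a.2.2] c

lemma inner_sS (x y : S3) : ⟪((sS x y : S3) : E4), (y : E4)⟫ = 2 * ⟪(x : E4), (y : E4)⟫ ^ 2 - 1 := by
  rw [coe_sS, refl4_apply, inner_sub_left, inner_smul_left, inner_self_S3]
  simp only [conj_trivial]
  ring

/-- The squares of the three inner products of two antipodal points. -/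
lemma antipodal_cases {P Q : M3} (h : sM P Q = Q) :
    (∀ c, ⟪(crd c (gsec P) : E4), (crd c (gsec Q) : E4)⟫ ^ 2 = 1) ∨
    ∃ c, ⟪(crd c (gsec P) : E4), (crd c (gsec Q) : E4)⟫ ^ 2 = 1 ∧
      ∀ c', c' ≠ c → ⟪(crd c' (gsec P) : E4), (crd c' (gsec Q) : E4)⟫ = 0 := by
  have h1 : tmap (sN (gsec P) (gsec Q)) = tmap (gsec Q) := by
    have h2 : fmap (sN (gsec P) (gsec Q)) = fmap (gsec Q) := by
      rw [fmap_gsec Q]; exact h
    exact congrArg Subtype.val h2
  have h3 : ⟪tmap (sN (gsec P) (gsec Q)), tmap (gsec Q)⟫ = 1 := by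
    rw [h1, inner_tmap, inner_self_S3, inner_self_S3, inner_self_S3]; norm_num
  rw [inner_tmap] at h3
  have h4 := abs_eq_one_of_mul (abs_inner_S3_le _ _) (abs_inner_S3_le _ _) (abs_inner_S3_le _ _)
    (by rw [h3]; norm_num)
  simp only [sN, inner_sS] at h3 h4
  set t1 := ⟪((gsec P).1 : E4), ((gsec Q).1 : E4)⟫ with ht1
  set t2 := ⟪((gsec P).2.1 : E4), ((gsec Q).2.1 : E4)⟫ with ht2
  set t3 := ⟪((gsec P).2.2 : E4), ((gsec Q).2.2 : E4)⟫ with ht3
  obtain ⟨ha, hb, hc⟩ := h4
  have key : ∀ t : ℝ, |2 * t ^ 2 - 1| = 1 → (t ^ 2 = 1 ∧ 2 * t ^ 2 - 1 = 1) ∨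
      (t = 0 ∧ 2 * t ^ 2 - 1 = -1) := by
    intro t ht
    rcases eq_or_eq_neg_of_abs_eq ht with h | h
    · left; exact ⟨by linarith, h⟩
    · right
      have : t ^ 2 = 0 := by linarith
      exact ⟨by simpa using this, h⟩
  rcases key t1 ha with ⟨a1, a2⟩ | ⟨a1, a2⟩ <;> rcases key t2 hb with ⟨b1, b2⟩ | ⟨b1, b2⟩ <;>
    rcases key t3 hc with ⟨c1, c2⟩ | ⟨c1, c2⟩ <;> rw [a2, b2, c2] at h3
  · left
    intro c
    fin_cases c
    · exact a1
    · exact b1
    · exact c1
  · norm_num at h3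
  · norm_num at h3
  · right
    refine ⟨0, a1, ?_⟩
    intro c' hc'
    fin_cases c'
    · exact absurd rfl hc'
    · exact b1
    · exact c1
  · norm_num at h3
  · right
    refine ⟨1, b1, ?_⟩
    intro c' hc'
    fin_cases c'
    · exact a1
    · exact absurd rfl hc'
    · exact c1
  · right
    refine ⟨2, c1, ?_⟩
    intro c' hc'
    fin_cases c'
    · exact a1
    · exact b1
    · exact absurd rfl hc'
  · norm_num at h3

/-- If all three inner products have square one, then the tensors agree up to sign. -/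
lemma iota_eq_or_neg {P Q : M3}
    (h : ∀ c, ⟪(crd c (gsec P) : E4), (crd c (gsec Q) : E4)⟫ ^ 2 = 1) :
    iota P = iota Q ∨ iota P = -iota Q := by
  have h1 : ∀ c, |⟪(crd c (gsec P) : E4), (crd c (gsec Q) : E4)⟫| = 1 := by
    intro c
    have := h c
    rw [sq, mul_self_eq_one_iff] at this
    rcases this with h | h <;> rw [h] <;> norm_num
  obtain ⟨e0, h0, -⟩ := exists_sgn_of_abs (h1 0)
  obtain ⟨e1, h1', -⟩ := exists_sgn_of_abs (h1 1)
  obtain ⟨e2, h2, -⟩ := exists_sgn_of_abs (h1 2)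
  have hP : iota P = tmap (gsec P) := (congrArg Subtype.val (fmap_gsec P)).symm
  have hQ : iota Q = tmap (gsec Q) := (congrArg Subtype.val (fmap_gsec Q)).symm
  rw [hP, hQ]
  have h0' : ((gsec P).1 : E4) = ((e0 : ℤ) : ℝ) • ((gsec Q).1 : E4) := by
    rw [← coe_sgn]; exact congrArg Subtype.val h0
  have h1'' : ((gsec P).2.1 : E4) = ((e1 : ℤ) : ℝ) • ((gsec Q).2.1 : E4) := by
    rw [← coe_sgn]; exact congrArg Subtype.val h1'
  have h2' : ((gsec P).2.2 : E4) = ((e2 : ℤ) : ℝ) • ((gsec Q).2.2 : E4) := by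
    rw [← coe_sgn]; exact congrArg Subtype.val h2
  unfold tmap
  rw [h0', h1'', h2']
  rcases Int.units_eq_one_or e0 with rfl | rfl <;>
    rcases Int.units_eq_one_or e1 with rfl | rfl <;>
    rcases Int.units_eq_one_or e2 with rfl | rfl <;>
    simp [TensorProduct.neg_tmul, TensorProduct.tmul_neg]

/-- Pairwise orthogonal unit vectors in `E4`: at most four. -/
lemma not_five_orthonormal (v : Fin 5 → S3) (h : ∀ i j, i ≠ j → ⟪(v i : E4), (v j : E4)⟫ = 0) :
    False := by
  have h1 : Orthonormal ℝ (fun i => (v i : E4)) := ⟨fun i => norm_S3 _, fun i j hij => h i j hij⟩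
  have h2 := h1.linearIndependent.fintype_card_le_finrank
  simp at h2

/-- The combinatorial core: colourings of the complete graph on five vertices by three
equivalence relations. -/
lemma color_lemma (R O : Fin 3 → Fin 5 → Fin 5 → Prop)
    (hsymm : ∀ c i j, R c i j → R c j i) (htrans : ∀ c i j k, R c i j → R c j k → R c i k)
    (hRO : ∀ c i j, R c i j → O c i j → False)
    (h : ∀ i j, i ≠ j → ∃ c, R c i j ∧ ∀ c', c' ≠ c → O c' i j) :
    ∃ a, ∀ i j, i ≠ j → R a i j := by
  choose! col hcol1 hcol2 using h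
  have huniq : ∀ i j c, i ≠ j → R c i j → c = col i j := by
    intro i j c hij hR
    by_contra hne
    exact hRO c i j hR (hcol2 i j hij c hne)
  have hcs : ∀ i j, i ≠ j → col i j = col j i := fun i j hij =>
    huniq j i _ hij.symm (hsymm _ _ _ (hcol1 i j hij))
  have hT : ∀ i j k, i ≠ j → i ≠ k → j ≠ k → col i j = col i k → col j k = col i j := by
    intro i j k hij hik hjk he
    have h1 := hsymm _ _ _ (hcol1 i j hij)
    have h2 := hcol1 i k hik
    rw [← he] at h2
    exact (huniq j k _ hjk (htrans _ _ _ _ h1 h2)).symm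
  obtain ⟨j, k, hjk, he⟩ := Fintype.exists_ne_map_eq_of_card_lt
    (fun l : Fin 4 => col 0 l.succ) (by simp)
  have hj0 : (0 : Fin 5) ≠ j.succ := (Fin.succ_ne_zero j).symm
  have hk0 : (0 : Fin 5) ≠ k.succ := (Fin.succ_ne_zero k).symm
  have hjk' : j.succ ≠ k.succ := fun h => hjk (Fin.succ_injective _ h)
  set a := col 0 j.succ with ha
  have hall : ∀ l : Fin 5, 0 ≠ l → col 0 l = a := by
    intro l hl
    by_contra hne
    have hlj : l ≠ j.succ := by rintro rfl; exact hne rfl
    have hlk : l ≠ k.succ := by rintro rfl; exact hne he.symm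
    -- colour of `j l` and of `k l` is the third one
    have e1 : col j.succ l ≠ a := by
      intro h1
      have h2 : col j.succ 0 = col j.succ l := by rw [h1, ← hcs 0 _ hj0]
      have h3 := hT j.succ 0 l hj0.symm hlj.symm hl h2
      rw [h2, h1] at h3
      exact hne h3
    have e2 : col j.succ l ≠ col 0 l := by
      intro h1
      have h2 : col l 0 = col l j.succ := by
        rw [← hcs 0 l hl, ← h1, hcs j.succ l hlj.symm]
      have h3 := hT l 0 j.succ hl.symm hlj hj0 h2
      rw [← ha, ← hcs 0 l hl] at h3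
      exact hne h3.symm
    have e3 : col k.succ l ≠ a := by
      intro h1
      have h2 : col k.succ 0 = col k.succ l := by rw [h1, ← hcs 0 _ hk0, ← he]
      have h3 := hT k.succ 0 l hk0.symm hlk.symm hl h2
      rw [h2, h1] at h3
      exact hne h3
    have e4 : col k.succ l ≠ col 0 l := by
      intro h1
      have h2 : col l 0 = col l k.succ := by
        rw [← hcs 0 l hl, ← h1, hcs k.succ l hlk.symm]
      have h3 := hT l 0 k.succ hl.symm hlk hk0 h2
      rw [← he, ← hcs 0 l hl] at h3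
      exact hne h3.symm
    have e5 : col j.succ l = col k.succ l := by
      have : ∀ a b c d : Fin 3, b ≠ a → c ≠ a → c ≠ b → d ≠ a → d ≠ b → c = d := by
        intro a b c d
        simp only [Fin.ext_iff, ne_eq]
        omega
      exact this a (col 0 l) _ _ hne e1 e2 e3 e4
    have h6 : col l j.succ = col l k.succ := by
      rw [hcs l _ hlj, hcs l _ hlk, e5]
    have h7 := hT l j.succ k.succ hlj hlk hjk' h6
    have h8 := hT 0 j.succ k.succ hj0 hk0 hjk' he
    rw [h8, hcs l _ hlj] at h7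
    exact e1 h7.symm
  refine ⟨a, ?_⟩
  intro i j hij
  by_cases hi : i = 0
  · subst hi
    have := hcol1 0 j hij
    rwa [hall j hij] at this
  · by_cases hj : j = 0
    · subst hj
      have := hcol1 0 i (Ne.symm hi)
      rw [hall i (Ne.symm hi)] at this
      exact hsymm _ _ _ this
    · have h1 := hcol1 0 i (Ne.symm hi)
      have h2 := hcol1 0 j (Ne.symm hj)
      rw [hall i (Ne.symm hi)] at h1
      rw [hall j (Ne.symm hj)] at h2
      exact htrans _ _ _ _ (hsymm _ _ _ h1) h2

lemma sq_inner_trans {x y z : S3} (h1 : ⟪(x : E4), (y : E4)⟫ ^ 2 = 1)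
    (h2 : ⟪(y : E4), (z : E4)⟫ ^ 2 = 1) : ⟪(x : E4), (z : E4)⟫ ^ 2 = 1 := by
  have h3 : |⟪(x : E4), (y : E4)⟫| = 1 := by
    rw [sq, mul_self_eq_one_iff] at h1
    rcases h1 with h | h <;> rw [h] <;> norm_num
  obtain ⟨e, he, -⟩ := exists_sgn_of_abs h3
  rw [he, coe_sgn, inner_smul_left, mul_pow, h2]
  rcases Int.units_eq_one_or e with rfl | rfl <;> norm_num

/-- Five pairwise antipodal points of the Segre manifold, no two of which agree up to sign,
do not exist. -/
lemma no_five (P : Fin 5 → M3) (hA : ∀ i j, sM (P i) (P j) = P j)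
    (hne : ∀ i j, i ≠ j → iota (P i) ≠ iota (P j) ∧ iota (P i) ≠ -iota (P j)) : False := by
  set v : Fin 3 → Fin 5 → S3 := fun c i => crd c (gsec (P i)) with hv
  obtain ⟨a, ha⟩ := color_lemma
    (fun c i j => ⟪(v c i : E4), (v c j : E4)⟫ ^ 2 = 1)
    (fun c i j => ⟪(v c i : E4), (v c j : E4)⟫ = 0)
    (fun c i j h => by rw [real_inner_comm]; exact h)
    (fun c i j k h1 h2 => sq_inner_trans h1 h2)
    (fun c i j h1 h2 => by rw [h2] at h1; norm_num at h1)
    (fun i j hij => by
      rcases antipodal_cases (hA i j) with h | h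
      · exfalso
        rcases iota_eq_or_neg h with h' | h'
        · exact (hne i j hij).1 h'
        · exact (hne i j hij).2 h'
      · exact h)
  -- the other coordinates are pairwise orthogonal
  obtain ⟨c', hc'⟩ : ∃ c' : Fin 3, c' ≠ a := by
    fin_cases a
    · exact ⟨1, by decide⟩
    · exact ⟨0, by decide⟩
    · exact ⟨0, by decide⟩
  refine not_five_orthonormal (v c') ?_
  intro i j hij
  rcases antipodal_cases (hA i j) with h | ⟨c, hc1, hc2⟩
  · exfalso
    rcases iota_eq_or_neg h with h' | h'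
    · exact (hne i j hij).1 h'
    · exact (hne i j hij).2 h'
  · have hca : a = c := by
      by_contra hac
      have h1 := ha i j hij
      have h2 := hc2 a hac
      simp only [hv] at h1
      rw [h2] at h1
      norm_num at h1
    rw [← hca] at hc2
    exact hc2 c' hc'

/-- Nine pairwise antipodal points of the Segre manifold do not exist. -/
lemma no_nine (P : Fin 9 → M3) (hinj : Function.Injective P)
    (hA : ∀ i j, sM (P i) (P j) = P j) : False := by
  classical
  let κ : Fin 9 → Finset W3 := fun i => {iota (P i), -iota (P i)}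
  have hfib : ∀ a ∈ Finset.univ.image κ, (Finset.univ.filter (fun i => κ i = a)).card ≤ 2 := by
    intro a ha
    obtain ⟨i, -, rfl⟩ := Finset.mem_image.mp ha
    have h1 : (Finset.univ.filter (fun j => κ j = κ i)).card ≤ (κ i).card := by
      apply Finset.card_le_card_of_injOn (fun j => iota (P j))
      · intro j hj
        have hj' : κ j = κ i := by simpa using hj
        change iota (P j) ∈ κ i
        rw [← hj']
        simp [κ]
      · intro j _ k _ hjk
        exact hinj (iota_injective hjk)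
    exact h1.trans (Finset.card_le_two)
  have h9 := Finset.card_le_mul_card_image (Finset.univ : Finset (Fin 9)) 2 hfib
  rw [Finset.card_univ, Fintype.card_fin] at h9
  have h5 : 5 ≤ (Finset.univ.image κ).card := by omega
  obtain ⟨e⟩ : Nonempty (Fin 5 ↪ ↥(Finset.univ.image κ)) := by
    apply Function.Embedding.nonempty_of_card_le
    simpa using h5
  have hq : ∀ i : Fin 5, ∃ j : Fin 9, κ j = (e i : Finset W3) := by
    intro i
    obtain ⟨j, -, hj⟩ := Finset.mem_image.mp (e i).2
    exact ⟨j, hj⟩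
  choose q hq using hq
  refine no_five (fun i => P (q i)) (fun i j => hA _ _) ?_
  intro i j hij
  have hκ : κ (q i) ≠ κ (q j) := by
    rw [hq, hq]
    intro h
    exact hij (e.injective (Subtype.ext h))
  constructor
  · intro h
    apply hκ
    simp only [κ, h]
  · intro h
    apply hκ
    simp only [κ, h, neg_neg]
    exact Finset.pair_comm _ _

/-! ## The lower bound for the mod 2 cohomology -/

/-- A lower bound for the rank of cohomology from dual families of cocycles and functionals. -/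
lemma le_rank_cohomology {X : Type} [TopologicalSpace X] (n m : ℕ)
    (L : Fin m → ((Simp X n → ZMod 2) →ₗ[ZMod 2] ZMod 2))
    (hL : ∀ j, ∀ c ∈ coboundaries X n, L j c = 0)
    (cls : Fin m → (Simp X n → ZMod 2)) (hcls : ∀ i, coboundary X n (cls i) = 0)
    (hdual : ∀ i j, L j (cls i) = if i = j then 1 else 0) :
    (m : Cardinal) ≤ Module.rank (ZMod 2) (SingCohomology X n) := by
  let Φ₀ : LinearMap.ker (coboundary X n) →ₗ[ZMod 2] (Fin m → ZMod 2) :=
    (LinearMap.pi L).comp (LinearMap.ker (coboundary X n)).subtype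
  have hΦ : (coboundaries X n).submoduleOf (LinearMap.ker (coboundary X n)) ≤
      LinearMap.ker Φ₀ := by
    intro c hc
    rw [LinearMap.mem_ker]
    funext j
    exact hL j c.1 hc
  let Φ : SingCohomology X n →ₗ[ZMod 2] (Fin m → ZMod 2) := Submodule.liftQ _ Φ₀ hΦ
  have hsurj : Function.Surjective Φ := by
    intro y
    refine ⟨Submodule.Quotient.mk (∑ i, y i • (⟨cls i, hcls i⟩ : LinearMap.ker (coboundary X n))), ?_⟩
    have h1 : Φ (Submodule.Quotient.mk
        (∑ i, y i • (⟨cls i, hcls i⟩ : LinearMap.ker (coboundary X n)))) =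
        Φ₀ (∑ i, y i • (⟨cls i, hcls i⟩ : LinearMap.ker (coboundary X n))) := rfl
    rw [h1, map_sum]
    funext j
    simp only [map_smul, Finset.sum_apply, Pi.smul_apply, smul_eq_mul]
    have h2 : ∀ i, Φ₀ (⟨cls i, hcls i⟩ : LinearMap.ker (coboundary X n)) j =
        if i = j then 1 else 0 := fun i => hdual i j
    simp [h2]
  have h := LinearMap.rank_le_of_surjective Φ hsurj
  rwa [rank_fin_fun] at h

/-! ### Affine simplices on the sphere -/

/-- affine combination of vectors -/
noncomputable def lin {n : ℕ} (w : Fin (n + 1) → E4) (t : stdSimplex ℝ (Fin (n + 1))) : E4 :=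
  ∑ i, t i • w i

lemma continuous_lin {n : ℕ} (w : Fin (n + 1) → E4) : Continuous (lin w) := by
  unfold lin
  refine continuous_finsetSum _ fun i _ => ?_
  have h : Continuous fun t : stdSimplex ℝ (Fin (n + 1)) => t i :=
    (continuous_apply i).comp continuous_subtype_val
  exact h.smul continuous_const

/-- a family of vectors none of whose convex combinations vanishes -/
def Good {n : ℕ} (w : Fin (n + 1) → E4) : Prop := ∀ t, lin w t ≠ 0

/-- The spherical simplex spanned by the vectors `w`. -/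
noncomputable def sph {n : ℕ} (w : Fin (n + 1) → E4) (hw : Good w) : Simp S3 n :=
  ⟨fun t => ⟨‖lin w t‖⁻¹ • lin w t, by
    rw [mem_sphere_zero_iff_norm, norm_smul, norm_inv, norm_norm,
      inv_mul_cancel₀ (norm_ne_zero_iff.mpr (hw t))]⟩,
    Continuous.subtype_mk (((continuous_lin w).norm.inv₀
      (fun t => norm_ne_zero_iff.mpr (hw t))).smul (continuous_lin w)) _⟩

lemma lin_map {n m : ℕ} (f : Fin (n + 1) → Fin (m + 1)) (w : Fin (m + 1) → E4)
    (t : stdSimplex ℝ (Fin (n + 1))) : lin w (stdSimplex.map f t) = lin (w ∘ f) t := by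
  unfold lin
  simp only [stdSimplex.map_coe, FunOnFinite.linearMap_apply_apply, Function.comp_apply]
  simp only [Finset.sum_smul]
  rw [← Finset.sum_fiberwise (Finset.univ : Finset (Fin (n + 1))) f (fun i => t i • w (f i))]
  refine Finset.sum_congr rfl fun j _ => Finset.sum_congr rfl fun i hi => ?_
  rw [Finset.mem_filter] at hi
  rw [hi.2]

lemma Good.comp {n m : ℕ} {w : Fin (m + 1) → E4} (hw : Good w) (f : Fin (n + 1) → Fin (m + 1)) :
    Good (w ∘ f) := by
  intro t
  rw [← lin_map]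
  exact hw _

lemma Good.neg {n : ℕ} {w : Fin (n + 1) → E4} (hw : Good w) : Good (-w) := by
  intro t
  have : lin (-w) t = - lin w t := by simp [lin]
  rw [this]
  exact neg_ne_zero.mpr (hw t)

lemma face_sph {n : ℕ} (w : Fin (n + 1 + 1) → E4) (hw : Good w) (i : Fin (n + 2)) :
    face (sph w hw) i = sph (w ∘ i.succAbove) (hw.comp _) := by
  ext t : 1
  apply Subtype.ext
  change ‖lin w (stdSimplex.map i.succAbove t)‖⁻¹ • lin w (stdSimplex.map i.succAbove t) =
    ‖lin (w ∘ i.succAbove) t‖⁻¹ • lin (w ∘ i.succAbove) t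
  rw [lin_map]

lemma sph_neg {n : ℕ} (w : Fin (n + 1) → E4) (hw : Good w) (t : stdSimplex ℝ (Fin (n + 1))) :
    sph (-w) hw.neg t = - sph w hw t := by
  apply Subtype.ext
  have : lin (-w) t = - lin w t := by simp [lin]
  change ‖lin (-w) t‖⁻¹ • lin (-w) t = -(‖lin w t‖⁻¹ • lin w t)
  rw [this, norm_neg, smul_neg]

lemma lin_vertex {n : ℕ} (w : Fin (n + 1) → E4) (k : Fin (n + 1)) :
    lin w (stdSimplex.vertex k) = w k := by
  unfold lin
  rw [Finset.sum_eq_single k]
  · simp
  · intro j _ hj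
    simp [hj]
  · simp

lemma sph_vertex {n : ℕ} (w : Fin (n + 1) → E4) (hw : Good w) (k : Fin (n + 1))
    (h : ‖w k‖ = 1) : ((sph w hw (stdSimplex.vertex k) : S3) : E4) = w k := by
  change ‖lin w (stdSimplex.vertex k)‖⁻¹ • lin w (stdSimplex.vertex k) = w k
  rw [lin_vertex, h]
  simp

lemma sph_congr {n : ℕ} {w w' : Fin (n + 1) → E4} (h : w = w') (hw : Good w) (hw' : Good w') :
    sph w hw = sph w' hw' := by
  subst h; rfl

/-- The sign attached to an element of `ℤ/2`. -/
noncomputable def sg (b : ZMod 2) : ℝ := if b = 0 then 1 else -1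

lemma sg_ne_zero (b : ZMod 2) : sg b ≠ 0 := by
  unfold sg; split_ifs <;> norm_num

lemma sg_add_one (b : ZMod 2) : sg (b + 1) = - sg b := by
  have h1 : ∀ b : ZMod 2, b = 0 ∨ b = 1 := by decide
  have h' : (1 : ZMod 2) ≠ 0 := by decide
  have h : ((1 : ZMod 2) + 1) = 0 := by decide
  unfold sg
  rcases h1 b with rfl | rfl
  · rw [zero_add, if_neg h', if_pos rfl]
  · rw [h, if_pos rfl, if_neg h', neg_neg]

/-- Signed basis vectors of `E4`. -/
noncomputable def sv {n : ℕ} (hn : n + 1 ≤ 4) (ε : Fin (n + 1) → ZMod 2) (i : Fin (n + 1)) : E4 :=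
  sg (ε i) • EuclideanSpace.single (Fin.castLE hn i) (1 : ℝ)

lemma good_sv {n : ℕ} (hn : n + 1 ≤ 4) (ε : Fin (n + 1) → ZMod 2) : Good (sv hn ε) := by
  intro t ht
  have h1 : ∀ i, t i = 0 := by
    intro i
    have h2 := congrArg (fun v : E4 => v (Fin.castLE hn i)) ht
    simp only [lin, sv, PiLp.zero_apply] at h2
    rw [WithLp.ofLp_sum, Finset.sum_apply, Finset.sum_eq_single i] at h2
    · have h3 : t i * sg (ε i) = 0 := by simpa using h2
      rcases mul_eq_zero.mp h3 with h | h
      · exact h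
      · exact absurd h (sg_ne_zero _)
    · intro j _ hj
      simp [(Fin.castLE_injective hn).ne hj.symm]
    · simp
  have h4 := stdSimplex.sum_eq_one t
  simp [h1] at h4

/-- The mod 2 functional on cochains: evaluation on the image of the fundamental cycle of the
real projective space. -/
noncomputable def zc {X : Type} [TopologicalSpace X] (F : C(S3, X)) {n : ℕ} (hn : n + 1 ≤ 4) :
    (Simp X n → ZMod 2) →ₗ[ZMod 2] ZMod 2 where
  toFun c := ∑ ε : Fin n → ZMod 2, c (F.comp (sph (sv hn (Fin.cons 0 ε)) (good_sv hn _)))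
  map_add' c d := by simp [Finset.sum_add_distrib]
  map_smul' r c := by simp [Finset.mul_sum]

lemma zc_apply {X : Type} [TopologicalSpace X] (F : C(S3, X)) {n : ℕ} (hn : n + 1 ≤ 4)
    (c : Simp X n → ZMod 2) : zc F hn c =
      ∑ ε : Fin n → ZMod 2, c (F.comp (sph (sv hn (Fin.cons 0 ε)) (good_sv hn _))) := rfl

lemma face_comp {X Y : Type} [TopologicalSpace X] [TopologicalSpace Y] (F : C(X, Y)) {n : ℕ}
    (σ : Simp X (n + 1)) (i : Fin (n + 2)) : face (F.comp σ) i = F.comp (face σ i) := rfl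

/-- The functional `zc` vanishes on coboundaries. -/
lemma zc_coboundary {X : Type} [TopologicalSpace X] (F : C(S3, X)) (hF : ∀ p, F (-p) = F p)
    {n : ℕ} (hn : n + 1 + 1 ≤ 4) (b : Simp X n → ZMod 2) : zc F hn (coboundary X n b) = 0 := by
  rw [zc_apply]
  change ∑ ε : Fin (n + 1) → ZMod 2, ∑ j : Fin (n + 2),
    b (face (F.comp (sph (sv hn (Fin.cons 0 ε)) (good_sv hn _))) j) = 0
  rw [Finset.sum_comm]
  refine Finset.sum_eq_zero fun j _ => ?_
  simp only [face_comp, face_sph]
  refine Fin.cases ?_ (fun i => ?_) j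
  · -- the zeroth face
    refine Finset.sum_involution (fun ε _ => fun i => ε i + 1) ?_ ?_ ?_ ?_
    · intro ε _
      have h : F.comp (sph (sv hn (Fin.cons 0 fun i => ε i + 1) ∘ (0 : Fin (n + 2)).succAbove)
          ((good_sv hn _).comp _)) =
          F.comp (sph (sv hn (Fin.cons 0 ε) ∘ (0 : Fin (n + 2)).succAbove)
          ((good_sv hn _).comp _)) := by
        have hw : sv hn (Fin.cons 0 fun i => ε i + 1) ∘ (0 : Fin (n + 2)).succAbove =
            -(sv hn (Fin.cons 0 ε) ∘ (0 : Fin (n + 2)).succAbove) := by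
          funext i
          simp [sv, sg_add_one]
        ext t : 1
        rw [ContinuousMap.comp_apply, ContinuousMap.comp_apply,
          sph_congr hw _ ((good_sv hn _).comp _).neg, sph_neg, hF]
      rw [h]
      exact CharTwo.add_self_eq_zero _
    · intro ε _ _ h
      have := congrFun h 0
      simp at this
    · intro ε _
      exact Finset.mem_univ _
    · intro ε _
      funext i
      rw [add_assoc]
      have : (1 : ZMod 2) + 1 = 0 := by decide
      rw [this, add_zero]
  · refine Finset.sum_involution (fun ε _ => Function.update ε i (ε i + 1)) ?_ ?_ ?_ ?_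
    · intro ε _
      have hw : sv hn (Fin.cons 0 (Function.update ε i (ε i + 1))) ∘ (i.succ).succAbove =
          sv hn (Fin.cons 0 ε) ∘ (i.succ).succAbove := by
        funext k
        have hk : i.succ.succAbove k ≠ i.succ := Fin.succAbove_ne _ _
        simp only [Function.comp_apply, sv]
        congr 2
        generalize i.succ.succAbove k = l at hk
        refine Fin.cases ?_ (fun l' => ?_) l hk
        · intro _; simp
        · intro hk'
          have : l' ≠ i := fun h => hk' (by rw [h])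
          simp [this]
      rw [sph_congr hw _ ((good_sv hn _).comp _)]
      exact CharTwo.add_self_eq_zero _
    · intro ε _ _ h
      have := congrFun h i
      simp at this
    · intro ε _
      exact Finset.mem_univ _
    · intro ε _
      funext k
      by_cases hk : k = i
      · subst hk
        simp only [Function.update_self]
        rw [add_assoc]
        have : (1 : ZMod 2) + 1 = 0 := by decide
        rw [this, add_zero]
      · simp [hk]

/-- The first nonzero coordinate is positive. -/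
def posv (v : E4) : Prop :=
  0 < v 0 ∨ (v 0 = 0 ∧ (0 < v 1 ∨ (v 1 = 0 ∧ (0 < v 2 ∨ (v 2 = 0 ∧ 0 < v 3)))))

lemma pos_step (a : ℝ) (p q : Prop) (h : a = 0 → (p ↔ ¬ q)) :
    ((0 < -a ∨ (-a = 0 ∧ p)) ↔ ¬ (0 < a ∨ (a = 0 ∧ q))) := by
  rcases lt_trichotomy a 0 with h0 | h0 | h0
  · constructor
    · rintro - (h1 | ⟨h1, -⟩) <;> linarith
    · intro _; left; linarith
  · subst h0
    simp [h rfl]
  · constructor
    · rintro (h1 | ⟨h1, -⟩) <;> linarith
    · intro h1; exact absurd (Or.inl h0) h1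

lemma posv_neg {v : E4} (hv : v ≠ 0) : posv (-v) ↔ ¬ posv v := by
  unfold posv
  simp only [PiLp.neg_apply]
  refine pos_step _ _ _ fun h0 => pos_step _ _ _ fun h1 => pos_step _ _ _ fun h2 => ?_
  have h3 : v 3 ≠ 0 := by
    intro h3
    apply hv
    ext i
    fin_cases i
    · exact h0
    · exact h1
    · exact h2
    · exact h3
  rcases lt_or_gt_of_ne h3 with h | h
  · constructor
    · intro _; linarith
    · intro _; linarith
  · constructor
    · intro h'; linarith
    · intro h'; exact absurd h h'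

open Classical in
/-- The characteristic function of a half of the sphere. -/
noncomputable def hh (x : S3) : ZMod 2 := if posv (x : E4) then 0 else 1

lemma ne_zero_S3 (x : S3) : (x : E4) ≠ 0 := by
  intro h
  have := norm_S3 x
  rw [h] at this
  simp at this

lemma hh_neg (x : S3) : hh (-x) = hh x + 1 := by
  have h : (1 : ZMod 2) + 1 = 0 := by decide
  unfold hh
  rw [coe_neg_sphere]
  by_cases hx : posv (x : E4)
  · have h2 : ¬ posv (-(x : E4)) := fun h' => ((posv_neg (ne_zero_S3 x)).mp h') hx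
    rw [if_neg h2, if_pos hx, zero_add]
  · have h2 : posv (-(x : E4)) := (posv_neg (ne_zero_S3 x)).mpr hx
    rw [if_pos h2, if_neg hx, h]

/-- The nontrivial character. -/
def chi (e : ℤˣ) : ZMod 2 := if e = 1 then 0 else 1

lemma hh_sgn (e : ℤˣ) (x : S3) : hh (sgn e x) = hh x + chi e := by
  rcases Int.units_eq_one_or e with rfl | rfl
  · simp [sgn_one, chi]
  · rw [sgn_neg_one, hh_neg]
    rfl

/-- The labels of a point of `N3`. -/
noncomputable def lab (j : Fin 2) (a : N3) : ZMod 2 := if j = 0 then hh a.1 else hh a.2.1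

lemma lab_smul (j : Fin 2) (g : Gam) (a : N3) :
    lab j (g • a) = lab j a + chi (if j = 0 then g.1 else g.2) := by
  unfold lab
  by_cases hj : j = 0
  · simp [hj, smul_def, hh_sgn]
  · simp [hj, smul_def, hh_sgn]

/-- The product of label differences along the edges of a simplex. -/
noncomputable def val {n : ℕ} (word : Fin n → Fin 2) (τ : Simp N3 n) : ZMod 2 :=
  ∏ k : Fin n, (lab (word k) (τ (stdSimplex.vertex k.succ)) -
    lab (word k) (τ (stdSimplex.vertex k.castSucc)))

instance (n : ℕ) : ContractibleSpace (stdSimplex ℝ (Fin (n + 1))) :=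
  (convex_stdSimplex ℝ _).contractibleSpace ⟨_, single_mem_stdSimplex ℝ (0 : Fin (n + 1))⟩

instance (n : ℕ) : LocallyPathConnectedSpace (stdSimplex ℝ (Fin (n + 1))) :=
  (convex_stdSimplex ℝ _).locallyPathConnectedSpace

lemma exists_lift {n : ℕ} (σ : Simp M3 n) : ∃ τ : Simp N3 n, ∀ t, fmap (τ t) = σ t := by
  obtain ⟨τ, ⟨-, hτ⟩, -⟩ := isCoveringMap_fmap.existsUnique_continuousMap_lifts σ
    (stdSimplex.vertex 0) (gsec (σ (stdSimplex.vertex 0))) (fmap_gsec _)
  exact ⟨τ, fun t => congrFun hτ t⟩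

/-- A chosen lift of a singular simplex. -/
noncomputable def lft {n : ℕ} (σ : Simp M3 n) : Simp N3 n := (exists_lift σ).choose

lemma fmap_lft {n : ℕ} (σ : Simp M3 n) (t) : fmap (lft σ t) = σ t := (exists_lift σ).choose_spec t

lemma val_eq_of_lifts {n : ℕ} (word : Fin n → Fin 2) (τ τ' : Simp N3 n)
    (h : ∀ t, fmap (τ t) = fmap (τ' t)) : val word τ = val word τ' := by
  obtain ⟨g, hg⟩ := fmap_eq_iff.mp (h (stdSimplex.vertex 0))
  have h1 : (fun t => τ t) = fun t => g • τ' t := by
    refine isCoveringMap_fmap.eq_of_comp_eq τ.continuous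
      ((continuous_const_smul g).comp τ'.continuous) ?_ (stdSimplex.vertex 0) hg.symm
    funext t
    simp only [Function.comp_apply]
    rw [h t]
    exact (fmap_eq_iff.mpr ⟨g, rfl⟩).symm
  have h2 : ∀ t, τ t = g • τ' t := fun t => congrFun h1 t
  unfold val
  refine Finset.prod_congr rfl fun k _ => ?_
  rw [h2, h2, lab_smul, lab_smul]
  ring

/-- The cocycle attached to a word in the two degree one classes. -/
noncomputable def cls {n : ℕ} (word : Fin n → Fin 2) (σ : Simp M3 n) : ZMod 2 := val word (lft σ)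

lemma cls_eq {n : ℕ} (word : Fin n → Fin 2) (σ : Simp M3 n) (τ : Simp N3 n)
    (h : ∀ t, fmap (τ t) = σ t) : cls word σ = val word τ :=
  val_eq_of_lifts word _ _ fun t => by rw [fmap_lft, h]

lemma coboundary_cls_aux {n : ℕ} (word : Fin n → Fin 2)
    (hid : ∀ f : Fin n → Fin (n + 2) → ZMod 2, ∑ i : Fin (n + 2), ∏ k : Fin n,
      (f k (i.succAbove k.succ) - f k (i.succAbove k.castSucc)) = 0) :
    coboundary M3 n (cls word) = 0 := by
  funext σ
  change ∑ i : Fin (n + 2), cls word (face σ i) = 0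
  have h1 : ∀ i, cls word (face σ i) = val word (face (lft σ) i) := fun i =>
    cls_eq word _ _ fun t => fmap_lft σ _
  simp only [h1]
  have h2 : ∀ i (k : Fin (n + 1)), face (lft σ) i (stdSimplex.vertex k) =
      lft σ (stdSimplex.vertex (i.succAbove k)) := by
    intro i k
    change lft σ (stdSimplex.map i.succAbove (stdSimplex.vertex k)) = _
    rw [stdSimplex.map_vertex]
  simp only [val, h2]
  exact hid fun k l => lab (word k) (lft σ (stdSimplex.vertex l))

lemma two_eq_zero' : (2 : ZMod 2) = 0 := by decide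

lemma id_zero (f : Fin 0 → Fin 2 → ZMod 2) : ∑ i : Fin 2, ∏ k : Fin 0,
      (f k (i.succAbove k.succ) - f k (i.succAbove k.castSucc)) = 0 := by
  simp
  decide

lemma id_one (f : Fin 1 → Fin 3 → ZMod 2) : ∑ i : Fin 3, ∏ k : Fin 1,
      (f k (i.succAbove k.succ) - f k (i.succAbove k.castSucc)) = 0 := by
  have h : ∑ i : Fin 3, ∏ k : Fin 1,
      (f k (i.succAbove k.succ) - f k (i.succAbove k.castSucc)) =
      2 * (f 0 2 - f 0 0) := by
    simp [Fin.sum_univ_succ, Fin.succAbove]
    ring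
  rw [h, two_eq_zero', zero_mul]

lemma id_two (f : Fin 2 → Fin 4 → ZMod 2) : ∑ i : Fin 4, ∏ k : Fin 2,
      (f k (i.succAbove k.succ) - f k (i.succAbove k.castSucc)) = 0 := by
  have h : ∑ i : Fin 4, ∏ k : Fin 2,
      (f k (i.succAbove k.succ) - f k (i.succAbove k.castSucc)) =
      2 * ((f 0 2 - f 0 1) * (f 1 3 - f 1 2) + (f 0 1 - f 0 0) * (f 1 3 - f 1 2) +
        (f 0 1 - f 0 0) * (f 1 2 - f 1 1)) := by
    rw [Fin.sum_univ_four, Fin.prod_univ_two, Fin.prod_univ_two, Fin.prod_univ_two,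
      Fin.prod_univ_two]
    change (f 0 2 - f 0 1) * (f 1 3 - f 1 2) + (f 0 2 - f 0 0) * (f 1 3 - f 1 2) +
      (f 0 1 - f 0 0) * (f 1 3 - f 1 1) + (f 0 1 - f 0 0) * (f 1 2 - f 1 1) = _
    ring
  rw [h, two_eq_zero', zero_mul]

lemma id_three (f : Fin 3 → Fin 5 → ZMod 2) : ∑ i : Fin 5, ∏ k : Fin 3,
      (f k (i.succAbove k.succ) - f k (i.succAbove k.castSucc)) = 0 := by
  have h : ∑ i : Fin 5, ∏ k : Fin 3,
      (f k (i.succAbove k.succ) - f k (i.succAbove k.castSucc)) =
      2 * ((f 0 2 - f 0 1) * (f 1 3 - f 1 2) * (f 2 4 - f 2 3) +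
        (f 0 1 - f 0 0) * (f 1 3 - f 1 2) * (f 2 4 - f 2 3) +
        (f 0 1 - f 0 0) * (f 1 2 - f 1 1) * (f 2 4 - f 2 3) +
        (f 0 1 - f 0 0) * (f 1 2 - f 1 1) * (f 2 3 - f 2 2)) := by
    rw [Fin.sum_univ_five, Fin.prod_univ_three, Fin.prod_univ_three, Fin.prod_univ_three,
      Fin.prod_univ_three, Fin.prod_univ_three]
    change (f 0 2 - f 0 1) * (f 1 3 - f 1 2) * (f 2 4 - f 2 3) +
      (f 0 2 - f 0 0) * (f 1 3 - f 1 2) * (f 2 4 - f 2 3) +
      (f 0 1 - f 0 0) * (f 1 3 - f 1 1) * (f 2 4 - f 2 3) +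
      (f 0 1 - f 0 0) * (f 1 2 - f 1 1) * (f 2 4 - f 2 2) +
      (f 0 1 - f 0 0) * (f 1 2 - f 1 1) * (f 2 3 - f 2 2) = _
    ring
  rw [h, two_eq_zero', zero_mul]

/-- base point of `S3` -/
noncomputable def pt0 : S3 := ⟨EuclideanSpace.single 0 1, by simp⟩

/-- Three maps `S3 → N3`. -/
noncomputable def phi (c : Fin 3) : C(S3, N3) :=
  ![⟨fun p => (p, pt0, p), by fun_prop⟩, ⟨fun p => (pt0, p, p), by fun_prop⟩,
    ⟨fun p => (p, p, pt0), by fun_prop⟩] c

/-- Three maps `S3 → M3`. -/
noncomputable def Fm (c : Fin 3) : C(S3, M3) := (⟨fmap, continuous_fmap⟩ : C(N3, M3)).comp (phi c)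

lemma Fm_apply (c : Fin 3) (p : S3) : Fm c p = fmap (phi c p) := rfl

lemma Fm_neg (c : Fin 3) (p : S3) : Fm c (-p) = Fm c p := by
  rw [Fm_apply, Fm_apply, fmap_eq_iff]
  fin_cases c
  · refine ⟨(-1, 1), ?_⟩
    change (sgn (-1) p, sgn 1 pt0, sgn (-1 * 1) p) = (-p, pt0, -p)
    rw [mul_one, sgn_one, sgn_neg_one]
  · refine ⟨(1, -1), ?_⟩
    change (sgn 1 pt0, sgn (-1) p, sgn (1 * -1) p) = (pt0, -p, -p)
    rw [one_mul, sgn_one, sgn_neg_one]
  · refine ⟨(-1, -1), ?_⟩
    change (sgn (-1) p, sgn (-1) p, sgn (-1 * -1) pt0) = (-p, -p, pt0)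
    rw [neg_one_mul, neg_neg, sgn_one, sgn_neg_one]

/-- pairing of labels -/
def dl (c : Fin 3) (j : Fin 2) : ZMod 2 := ![![1, 0], ![0, 1], ![1, 1]] c j

lemma lab_phi (c : Fin 3) (j : Fin 2) (p q : S3) :
    lab j (phi c p) - lab j (phi c q) = dl c j * (hh p - hh q) := by
  have h0 : ∀ (a b c : S3), lab 0 (a, b, c) = hh a := fun _ _ _ => rfl
  have h1 : ∀ (a b c : S3), lab 1 (a, b, c) = hh b := fun _ _ _ => rfl
  fin_cases c <;> fin_cases j
  · change lab 0 (p, pt0, p) - lab 0 (q, pt0, q) = 1 * _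
    rw [h0, h0, one_mul]
  · change lab 1 (p, pt0, p) - lab 1 (q, pt0, q) = 0 * _
    rw [h1, h1, sub_self, zero_mul]
  · change lab 0 (pt0, p, p) - lab 0 (pt0, q, q) = 0 * _
    rw [h0, h0, sub_self, zero_mul]
  · change lab 1 (pt0, p, p) - lab 1 (pt0, q, q) = 1 * _
    rw [h1, h1, one_mul]
  · change lab 0 (p, p, pt0) - lab 0 (q, q, pt0) = 1 * _
    rw [h0, h0, one_mul]
  · change lab 1 (p, p, pt0) - lab 1 (q, q, pt0) = 1 * _
    rw [h1, h1, one_mul]

lemma norm_sv {n : ℕ} (hn : n + 1 ≤ 4) (ε : Fin (n + 1) → ZMod 2) (i : Fin (n + 1)) :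
    ‖sv hn ε i‖ = 1 := by
  unfold sv sg
  rw [norm_smul]
  split_ifs <;> simp

lemma hh_sph_vertex {n : ℕ} (hn : n + 1 ≤ 4) (ε : Fin (n + 1) → ZMod 2) (i : Fin (n + 1)) :
    hh (sph (sv hn ε) (good_sv hn ε) (stdSimplex.vertex i)) = ε i := by
  unfold hh
  rw [sph_vertex _ _ _ (norm_sv hn ε i)]
  have h1 : ∀ b : ZMod 2, b = 0 ∨ b = 1 := by decide
  have h' : (1 : ZMod 2) ≠ 0 := by decide
  have key : ∀ (j : Fin 4) (b : ZMod 2), posv (sg b • EuclideanSpace.single j (1 : ℝ)) ↔ b = 0 := by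
    intro j b
    rcases h1 b with rfl | rfl
    · simp only [sg, if_true, iff_true, one_smul]
      fin_cases j <;> simp [posv]
    · simp only [sg, h', if_false, iff_false]
      fin_cases j <;> simp [posv]
  unfold sv
  by_cases h : ε i = 0
  · rw [if_pos ((key _ _).mpr h), h]
  · rw [if_neg (fun h2 => h ((key _ _).mp h2))]
    rcases h1 (ε i) with h2 | h2
    · exact absurd h2 h
    · exact h2.symm

/-- The evaluation of the classes on the cycles. -/
lemma zc_cls {n : ℕ} (hn : n + 1 ≤ 4) (c : Fin 3) (word : Fin n → Fin 2) :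
    zc (Fm c) hn (cls word) = ∑ ε : Fin n → ZMod 2, ∏ k : Fin n,
      (dl c (word k) * ((Fin.cons 0 ε : Fin (n + 1) → ZMod 2) k.succ -
        (Fin.cons 0 ε : Fin (n + 1) → ZMod 2) k.castSucc)) := by
  rw [zc_apply]
  refine Finset.sum_congr rfl fun ε _ => ?_
  rw [cls_eq word _ ((phi c).comp (sph (sv hn (Fin.cons 0 ε)) (good_sv hn _))) (fun t => rfl)]
  unfold val
  refine Finset.prod_congr rfl fun k _ => ?_
  rw [ContinuousMap.comp_apply, ContinuousMap.comp_apply, lab_phi, hh_sph_vertex, hh_sph_vertex]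

lemma zc_vanish {n : ℕ} (hn : n + 1 + 1 ≤ 4) (c : Fin 3) (b : Simp M3 (n + 1) → ZMod 2)
    (hb : b ∈ coboundaries M3 (n + 1)) : zc (Fm c) hn b = 0 := by
  obtain ⟨b', rfl⟩ := hb
  exact zc_coboundary (Fm c) (Fm_neg c) hn b'

lemma rank_zero : (1 : Cardinal) ≤ Module.rank (ZMod 2) (SingCohomology M3 0) := by
  have h := le_rank_cohomology (X := M3) 0 1 (fun _ => zc (Fm 0) (by norm_num))
    (fun j c hc => by
      have : c = 0 := hc
      rw [this, map_zero])
    (fun _ => cls (n := 0) (fun k => k.elim0))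
    (fun i => coboundary_cls_aux _ id_zero)
    (fun i j => by
      rw [zc_cls, if_pos (Subsingleton.elim i j)]
      simp)
  exact_mod_cast h

/-- The functionals used in degrees one to three. -/
noncomputable def LL {n : ℕ} (hn : n + 1 ≤ 4) (j : Fin 3) :
    (Simp M3 n → ZMod 2) →ₗ[ZMod 2] ZMod 2 :=
  ![zc (Fm 0) hn, zc (Fm 1) hn, zc (Fm 0) hn + zc (Fm 1) hn + zc (Fm 2) hn] j

lemma LL_vanish {n : ℕ} (hn : n + 1 + 1 ≤ 4) (j : Fin 3) (b : Simp M3 (n + 1) → ZMod 2)
    (hb : b ∈ coboundaries M3 (n + 1)) : LL hn j b = 0 := by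
  fin_cases j
  · exact zc_vanish hn 0 b hb
  · exact zc_vanish hn 1 b hb
  · change zc (Fm 0) hn b + zc (Fm 1) hn b + zc (Fm 2) hn b = 0
    rw [zc_vanish hn 0 b hb, zc_vanish hn 1 b hb, zc_vanish hn 2 b hb]
    simp

lemma rank_one : (2 : Cardinal) ≤ Module.rank (ZMod 2) (SingCohomology M3 1) := by
  have h := le_rank_cohomology (X := M3) 1 2 (fun j => LL (by norm_num) (Fin.castSucc j))
    (fun j c hc => LL_vanish (by norm_num) _ c hc)
    (fun i => cls (n := 1) (fun _ => i))
    (fun i => coboundary_cls_aux _ id_one)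
    (fun i j => by
      fin_cases j
      · change zc (Fm 0) _ (cls _) = _
        rw [zc_cls]
        fin_cases i <;> decide
      · change zc (Fm 1) _ (cls _) = _
        rw [zc_cls]
        fin_cases i <;> decide)
  exact_mod_cast h

/-- words of length two -/
def word2 (i : Fin 3) : Fin 2 → Fin 2 := ![![0, 0], ![1, 1], ![0, 1]] i

/-- words of length three -/
def word3 (i : Fin 3) : Fin 3 → Fin 2 := ![![0, 0, 0], ![1, 1, 1], ![0, 0, 1]] i

lemma rank_two : (3 : Cardinal) ≤ Module.rank (ZMod 2) (SingCohomology M3 2) := by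
  have h := le_rank_cohomology (X := M3) 2 3 (fun j => LL (by norm_num) j)
    (fun j c hc => LL_vanish (by norm_num) _ c hc)
    (fun i => cls (n := 2) (word2 i))
    (fun i => coboundary_cls_aux _ id_two)
    (fun i j => by
      fin_cases j
      · change zc (Fm 0) _ (cls _) = _
        rw [zc_cls]
        fin_cases i <;> decide
      · change zc (Fm 1) _ (cls _) = _
        rw [zc_cls]
        fin_cases i <;> decide
      · change zc (Fm 0) _ (cls _) + zc (Fm 1) _ (cls _) + zc (Fm 2) _ (cls _) = _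
        rw [zc_cls, zc_cls, zc_cls]
        fin_cases i <;> decide)
  exact_mod_cast h

lemma rank_three : (3 : Cardinal) ≤ Module.rank (ZMod 2) (SingCohomology M3 3) := by
  have h := le_rank_cohomology (X := M3) 3 3 (fun j => LL (by norm_num) j)
    (fun j c hc => LL_vanish (by norm_num) _ c hc)
    (fun i => cls (n := 3) (word3 i))
    (fun i => coboundary_cls_aux _ id_three)
    (fun i j => by
      fin_cases j
      · change zc (Fm 0) _ (cls _) = _
        rw [zc_cls]
        fin_cases i <;> decide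
      · change zc (Fm 1) _ (cls _) = _
        rw [zc_cls]
        fin_cases i <;> decide
      · change zc (Fm 0) _ (cls _) + zc (Fm 1) _ (cls _) + zc (Fm 2) _ (cls _) = _
        rw [zc_cls, zc_cls, zc_cls]
        fin_cases i <;> decide)
  exact_mod_cast h

/-- The total mod 2 Betti number of the Segre manifold is at least nine. -/
theorem nine_le_totalBetti : (9 : Cardinal) ≤ totalBetti M3 := by
  have hG : ∀ n : Fin 4, (((![1, 2, 3, 3] : Fin 4 → ℕ) n : ℕ) : Cardinal) ≤
      Module.rank (ZMod 2) (SingCohomology M3 n) := by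
    intro n
    fin_cases n
    · simpa using rank_zero
    · exact_mod_cast rank_one
    · exact_mod_cast rank_two
    · exact_mod_cast rank_three
  have h1 : Cardinal.mk (Σ n : Fin 4, Fin ((![1, 2, 3, 3] : Fin 4 → ℕ) n)) = 9 := by
    simp [Fin.sum_univ_succ]
  rw [← h1]
  unfold totalBetti
  have h2 : ∀ n : Fin 4, Nonempty (Fin ((![1, 2, 3, 3] : Fin 4 → ℕ) n) ↪
      (Module.rank (ZMod 2) (SingCohomology M3 n)).out) := by
    intro n
    rw [← Cardinal.le_def, Cardinal.mk_fin, Cardinal.mk_out]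
    exact hG n
  let e := fun n => Classical.choice (h2 n)
  let g : (Σ n : Fin 4, Fin ((![1, 2, 3, 3] : Fin 4 → ℕ) n)) →
      (Σ n : ℕ, (Module.rank (ZMod 2) (SingCohomology M3 n)).out) :=
    fun x => ⟨(x.1 : ℕ), e x.1 x.2⟩
  have hg : Function.Injective g := by
    rintro ⟨n, x⟩ ⟨m, y⟩ h
    have hnm : n = m := Fin.ext (congrArg Sigma.fst h)
    subst hnm
    have h3 : e n x = e n y := by
      have := (Sigma.mk.injEq _ _ _ _).mp h
      exact eq_of_heq this.2
    rw [(e n).injective h3]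
  exact Cardinal.mk_le_of_injective hg

/-! ## Conclusion -/

/-- The Segre manifold as a symmetric space. -/
noncomputable def segre : RiemannianSymmetricSpace IN M3 where
  metric := metricM3
  sym := sM
  bijective_sym P := (Function.Involutive.bijective (sM_sM P))
  contMDiff_sym := contMDiff_sM
  isometry_sym := metricM3_sM
  sym_self := sM_self
  mfderiv_sym_self := mfderiv_sM_self

lemma card_le_eight (A : Set M3) (hA : segre.IsAntipodal A) : Cardinal.mk A ≤ 8 := by
  by_contra h
  rw [not_le] at h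
  have h9 : (9 : Cardinal) ≤ Cardinal.mk A := by
    have h1 : ((8 : ℕ) : Cardinal) < Cardinal.mk A := by exact_mod_cast h
    have h2 := Cardinal.natCast_add_one_le_iff.mpr h1
    have h3 : ((8 : ℕ) : Cardinal) + 1 = 9 := by norm_num
    rwa [h3] at h2
  have h10 : Cardinal.mk (Fin 9) ≤ Cardinal.mk A := by simpa using h9
  obtain ⟨e⟩ := Cardinal.le_def _ _ |>.mp h10
  exact no_nine (fun i => (e i : M3)) (Subtype.val_injective.comp e.injective)
    (fun i j => hA _ (e i).2 _ (e j).2)

/-- basis vectors as points of the sphere -/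
noncomputable def bs (i : Fin 4) : S3 := ⟨EuclideanSpace.single i 1, by simp⟩

lemma inner_bs (i j : Fin 4) : ⟪(bs i : E4), (bs j : E4)⟫ = if i = j then 1 else 0 := by
  simp [bs, EuclideanSpace.inner_single_left]

/-- the four index triples -/
def tri4 (k : Fin 4) : Fin 4 × Fin 4 × Fin 4 := ![(0, 0, 0), (0, 1, 1), (1, 0, 1), (1, 1, 0)] k

/-- eight antipodal points -/
noncomputable def pts (x : ℤˣ × Fin 4) : M3 :=
  fmap (sgn x.1 (bs (tri4 x.2).1), bs (tri4 x.2).2.1, bs (tri4 x.2).2.2)

lemma iota_pts (x : ℤˣ × Fin 4) : iota (pts x) = ((x.1 : ℤ) : ℝ) •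
    ((bs (tri4 x.2).1 : E4) ⊗ₜ ((bs (tri4 x.2).2.1 : E4) ⊗ₜ (bs (tri4 x.2).2.2 : E4)) : W3) := by
  change tmap _ = _
  unfold tmap
  simp only [coe_sgn, TensorProduct.smul_tmul']

lemma refl4_sgn (e : ℤˣ) (x : S3) (v : E4) : refl4 (sgn e x) v = refl4 x v := by
  rw [refl4_apply, refl4_apply, coe_sgn]
  rcases Int.units_eq_one_or e with rfl | rfl
  · simp
  · simp

lemma refl4_bs (i j : Fin 4) : refl4 (bs i) (bs j : E4) =
    (if i = j then (1 : ℝ) else -1) • (bs j : E4) := by
  by_cases h : i = j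
  · subst h
    rw [refl4_self, if_pos rfl, one_smul]
  · rw [refl4_orthogonal _ (by rw [inner_bs, if_neg h]), if_neg h, neg_one_smul]

lemma sM_pts (x y : ℤˣ × Fin 4) : sM (pts x) (pts y) = pts y := by
  apply iota_injective
  rw [iota_sM, iota_pts, map_smul]
  congr 1
  obtain ⟨g, hg⟩ := fmap_eq_iff.mp (fmap_gsec (pts x))
  have hg' : gsec (pts x) = g • ((sgn x.1 (bs (tri4 x.2).1), bs (tri4 x.2).2.1,
    bs (tri4 x.2).2.2) : N3) := hg.symm
  rw [refl3_tmul, hg', smul_def]
  simp only [refl4_sgn, refl4_bs, TensorProduct.tmul_smul, ← TensorProduct.smul_tmul', smul_smul]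
  obtain ⟨e, k⟩ := x
  obtain ⟨e', k'⟩ := y
  have h : ((if (tri4 k).2.2 = (tri4 k').2.2 then (1 : ℝ) else -1) *
      (if (tri4 k).2.1 = (tri4 k').2.1 then (1 : ℝ) else -1)) *
      (if (tri4 k).1 = (tri4 k').1 then (1 : ℝ) else -1) = 1 := by
    fin_cases k <;> fin_cases k' <;> simp [tri4]
  rw [h, one_smul]

lemma inner_iota_pts (x y : ℤˣ × Fin 4) : ⟪iota (pts x), iota (pts y)⟫ =
    ((x.1 : ℤ) : ℝ) * ((y.1 : ℤ) : ℝ) * (if x.2 = y.2 then 1 else 0) := by
  have h1 : ∀ z : ℤˣ × Fin 4, iota (pts z) =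
      tmap ((sgn z.1 (bs (tri4 z.2).1), bs (tri4 z.2).2.1, bs (tri4 z.2).2.2) : N3) := fun z => rfl
  rw [h1, h1, inner_tmap]
  simp only [coe_sgn, inner_smul_left, inner_smul_right, inner_bs, conj_trivial]
  obtain ⟨e, k⟩ := x
  obtain ⟨e', k'⟩ := y
  fin_cases k <;> fin_cases k' <;> simp [tri4] <;> ring

lemma pts_injective : Function.Injective pts := by
  intro x y h
  have h1 := inner_iota_pts x y
  have h2 := inner_iota_pts y y
  rw [h] at h1
  rw [h1] at h2
  obtain ⟨e, k⟩ := x
  obtain ⟨e', k'⟩ := y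
  simp only at h2
  by_cases hk : k = k'
  · subst hk
    rcases Int.units_eq_one_or e with rfl | rfl <;> rcases Int.units_eq_one_or e' with rfl | rfl
    · rfl
    · norm_num at h2
    · norm_num at h2
    · rfl
  · rw [if_neg hk] at h2
    rcases Int.units_eq_one_or e' with rfl | rfl <;> norm_num at h2

lemma twoNumber_segre : segre.twoNumber = 8 := by
  apply le_antisymm
  · exact ciSup_le' fun A => card_le_eight A.1 A.2
  · have hA : segre.IsAntipodal (Set.range pts) := by
      rintro _ ⟨x, rfl⟩ _ ⟨y, rfl⟩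
      exact sM_pts x y
    have h1 : Cardinal.mk (Set.range pts) = 8 := by
      rw [Cardinal.mk_range_eq _ pts_injective]
      simp
    rw [← h1]
    exact le_ciSup (f := fun A : {A : Set M3 // segre.IsAntipodal A} => Cardinal.mk A.1)
      Cardinal.bddAbove_of_small ⟨Set.range pts, hA⟩


/-- **Main theorem.** There is a compact connected Riemannian symmetric space whose two-number is
`8` and whose total mod 2 Betti number is at least `9`. In particular the two-number and the
total mod 2 Betti number of a compact connected symmetric space need not agree. -/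
theorem result : ∃ (E : Type) (_ : NormedAddCommGroup E) (_ : NormedSpace ℝ E)
    (_ : FiniteDimensional ℝ E) (H : Type) (_ : TopologicalSpace H) (I : ModelWithCorners ℝ E H)
    (_ : I.Boundaryless) (M : Type) (_ : TopologicalSpace M) (_ : ChartedSpace H M)
    (_ : IsManifold I ∞ M) (_ : T2Space M) (_ : CompactSpace M) (_ : ConnectedSpace M)
    (S : RiemannianSymmetricSpace I M),
    S.twoNumber = 8 ∧ 9 ≤ totalBetti M ∧ S.twoNumber ≠ totalBetti M := by
  refine ⟨EN, inferInstance, inferInstance, inferInstance, _, inferInstance, IN, inferInstance, M3,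
    inferInstance, inferInstance, inferInstance, inferInstance, inferInstance, inferInstance,
    segre, twoNumber_segre, nine_le_totalBetti, ?_⟩
  intro h
  have h9 := nine_le_totalBetti
  rw [← h, twoNumber_segre] at h9
  norm_num at h9

end Pool.Agent.Results.MP_efd99a_gt.SegreCounterexample
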